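import Mathlib

/-! Approximate mountain climbing: a separation argument in the plane by lifting to the universal
cover of the circle. -/

set_option autoImplicit false

open Set Topology

namespace Pool.Agent.T2H33.Peg

/-- Two disjoint closed sets none of which separates two points do not separate them together; here
the sets are `ε ≤ D` and `D ≤ -ε`. -/
lemma joined (D : ℝ × ℝ → ℝ) (hD : Continuous D) (ε : ℝ) (hε : 0 < ε)
    (hL : ∀ t ∈ Icc (0 : ℝ) 1, D (0, t) ≤ 0) (hT : ∀ s ∈ Icc (0 : ℝ) 1, D (s, 1) ≤ 0)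
    (hB : ∀ s ∈ Icc (0 : ℝ) 1, 0 ≤ D (s, 0)) (hR : ∀ t ∈ Icc (0 : ℝ) 1, 0 ≤ D (1, t)) :
    JoinedIn {x | |D x| < ε} ((0 : ℝ), (0 : ℝ)) (1, 1) := by
  classical
  by_contra hj
  set O : Set (ℝ × ℝ) := {x | |D x| < ε} with hO
  have hOo : IsOpen O := isOpen_lt hD.abs continuous_const
  have i0 : (0 : ℝ) ∈ Icc (0 : ℝ) 1 := ⟨le_rfl, zero_le_one⟩
  have i1 : (1 : ℝ) ∈ Icc (0 : ℝ) 1 := ⟨zero_le_one, le_rfl⟩
  have d0 : D (0, 0) = 0 := le_antisymm (hL 0 i0) (hB 0 i0)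
  have d1 : D (1, 1) = 0 := le_antisymm (hT 1 i1) (hR 1 i1)
  have hp : ((0 : ℝ), (0 : ℝ)) ∈ O := by simp [hO, d0, hε]
  have hq : ((1 : ℝ), (1 : ℝ)) ∈ O := by simp [hO, d1, hε]
  set U : Set (ℝ × ℝ) := pathComponentIn O (0, 0) with hU
  have hUo : IsOpen U := hOo.pathComponentIn _
  have hpU : ((0 : ℝ), (0 : ℝ)) ∈ U := mem_pathComponentIn_self hp
  have hqU : ((1 : ℝ), (1 : ℝ)) ∉ U := fun h => hj h
  have hUc : ∀ y ∈ O, y ∉ U → ∃ V : Set (ℝ × ℝ), IsOpen V ∧ y ∈ V ∧ Disjoint V U := by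
    intro y hy hyU
    refine ⟨pathComponentIn O y, hOo.pathComponentIn _, mem_pathComponentIn_self hy, ?_⟩
    rw [Set.disjoint_left]
    intro z hz hzU
    exact hyU (JoinedIn.trans hzU (JoinedIn.symm hz))
  have hfr : ∀ y ∈ frontier U, y ∉ O := by
    intro y hy hyO
    by_cases hyU : y ∈ U
    · rw [hUo.frontier_eq] at hy
      exact hy.2 hyU
    · obtain ⟨V, hVo, hyV, hd⟩ := hUc y hyO hyU
      have h1 : y ∈ closure U := frontier_subset_closure hy
      rw [mem_closure_iff] at h1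
      obtain ⟨z, hz1, hz2⟩ := h1 V hVo hyV
      exact (Set.disjoint_left.1 hd) hz1 hz2
  set θ : ℝ × ℝ → ℝ := fun x => max 0 (min 1 ((ε - D x) / (2 * ε))) with hθ
  have hθc : Continuous θ := by
    simp only [hθ]
    fun_prop
  have θ0 : ∀ x, 0 ≤ θ x := fun x => le_max_left _ _
  have θ1 : ∀ x, θ x ≤ 1 := fun x => max_le zero_le_one (min_le_left _ _)
  have θA : ∀ x, ε ≤ D x → θ x = 0 := by
    intro x hx
    have : (ε - D x) / (2 * ε) ≤ 0 := div_nonpos_of_nonpos_of_nonneg (by linarith) (by linarith)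
    simp only [hθ]
    rw [max_eq_left]
    exact (min_le_right _ _).trans this
  have θB : ∀ x, D x ≤ -ε → θ x = 1 := by
    intro x hx
    have : 1 ≤ (ε - D x) / (2 * ε) := by rw [le_div_iff₀ (by linarith)]; linarith
    simp only [hθ]
    rw [min_eq_left this, max_eq_right zero_le_one]
  have θpos : ∀ x, D x < ε → 0 < θ x := by
    intro x hx
    have : 0 < (ε - D x) / (2 * ε) := div_pos (by linarith) (by linarith)
    simp only [hθ]
    exact lt_max_of_lt_right (lt_min one_pos this)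
  have θlt : ∀ x, -ε < D x → θ x < 1 := by
    intro x hx
    have : (ε - D x) / (2 * ε) < 1 := by rw [div_lt_one (by linarith)]; linarith
    simp only [hθ]
    exact max_lt one_pos ((min_le_right _ _).trans_lt this)
  have θh : ∀ x, D x = 0 → θ x = 1 / 2 := by
    intro x hx
    have : (ε - D x) / (2 * ε) = 1 / 2 := by rw [hx]; field_simp; ring
    simp only [hθ]
    rw [this]
    norm_num
  have hcoe2 : ((1 : ℝ) : AddCircle (2 : ℝ)) = ((-1 : ℝ) : AddCircle (2 : ℝ)) := by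
    rw [← sub_eq_zero, ← AddCircle.coe_sub, AddCircle.coe_eq_zero_iff]
    exact ⟨1, by norm_num⟩
  set h : ℝ × ℝ → AddCircle (2 : ℝ) := fun x =>
    if x ∈ U then ((θ x : ℝ) : AddCircle (2 : ℝ)) else ((-θ x : ℝ) : AddCircle (2 : ℝ)) with hh
  have hhc : Continuous h := by
    refine Continuous.if ?_ (by fun_prop) (by fun_prop)
    intro a ha
    have hnO := hfr a (by simpa using ha)
    simp only [hO, mem_ofPred_eq, not_lt, le_abs] at hnO
    rcases hnO with h1 | h1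
    · rw [θA a h1]; simp
    · rw [θB a (by linarith)]
      exact hcoe2
  obtain ⟨F, ⟨-, hF⟩, -⟩ := (AddCircle.isCoveringMap_coe (2 : ℝ)).existsUnique_continuousMap_lifts
    (⟨h, hhc⟩ : C(ℝ × ℝ, AddCircle (2 : ℝ))) ((0 : ℝ), (0 : ℝ)) (θ (0, 0)) (by
      simp [hh, hpU])
  have hF' : ∀ x, ((F x : ℝ) : AddCircle (2 : ℝ)) = h x := fun x => congrFun hF x
  have hFU : ∀ x ∈ U, ∃ n : ℤ, F x = θ x + 2 * n := by
    intro x hx
    have e := hF' x
    simp only [hh, hx, if_true] at e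
    rw [← sub_eq_zero, ← AddCircle.coe_sub, AddCircle.coe_eq_zero_iff] at e
    obtain ⟨n, hn⟩ := e
    refine ⟨n, ?_⟩
    rw [zsmul_eq_mul] at hn
    linarith
  have hFV : ∀ x, x ∉ U → ∃ n : ℤ, F x = -θ x + 2 * n := by
    intro x hx
    have e := hF' x
    simp only [hh, hx, if_false] at e
    rw [← sub_eq_zero, ← AddCircle.coe_sub, AddCircle.coe_eq_zero_iff] at e
    obtain ⟨n, hn⟩ := e
    refine ⟨n, ?_⟩
    rw [zsmul_eq_mul] at hn
    linarith
  obtain ⟨m, hm⟩ := hFU _ hpU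
  obtain ⟨m', hm'⟩ := hFV _ hqU
  rw [θh _ d0] at hm
  rw [θh _ d1] at hm'
  -- the first path
  set P1 : Set (ℝ × ℝ) := (fun t => ((0 : ℝ), t)) '' Icc 0 1 ∪ (fun s => (s, (1 : ℝ))) '' Icc 0 1
    with hP1
  set P2 : Set (ℝ × ℝ) := (fun s => (s, (0 : ℝ))) '' Icc 0 1 ∪ (fun t => ((1 : ℝ), t)) '' Icc 0 1
    with hP2
  have c1 : IsPreconnected P1 := by
    refine IsPreconnected.union (0, 1) ⟨1, i1, rfl⟩ ⟨0, i0, rfl⟩
      (isPreconnected_Icc.image _ (by fun_prop)) (isPreconnected_Icc.image _ (by fun_prop))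
  have c2 : IsPreconnected P2 := by
    refine IsPreconnected.union (1, 0) ⟨1, i1, rfl⟩ ⟨0, i0, rfl⟩
      (isPreconnected_Icc.image _ (by fun_prop)) (isPreconnected_Icc.image _ (by fun_prop))
  have D1 : ∀ x ∈ P1, D x ≤ 0 := by
    rintro x (⟨t, ht, rfl⟩ | ⟨s, hs, rfl⟩)
    · exact hL t ht
    · exact hT s hs
  have D2 : ∀ x ∈ P2, 0 ≤ D x := by
    rintro x (⟨t, ht, rfl⟩ | ⟨s, hs, rfl⟩)
    · exact hB t ht
    · exact hR s hs
  have key1 : ∀ x ∈ P1, ∀ k : ℤ, F x ≠ 2 * k := by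
    intro x hx k hk
    have hθp := θpos x (by linarith [D1 x hx])
    have hθl := θ1 x
    by_cases hxU : x ∈ U
    · obtain ⟨n, hn⟩ := hFU x hxU
      have h1 : ((k - n : ℤ) : ℝ) * 2 = θ x := by push_cast; linarith
      have h2 : (0 : ℝ) < ((k - n : ℤ) : ℝ) := by linarith
      have h3 : ((k - n : ℤ) : ℝ) < 1 := by linarith
      have h4 : 0 < k - n := by exact_mod_cast h2
      have h5 : k - n < 1 := by exact_mod_cast h3
      omega
    · obtain ⟨n, hn⟩ := hFV x hxU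
      have h1 : ((n - k : ℤ) : ℝ) * 2 = θ x := by push_cast; linarith
      have h2 : (0 : ℝ) < ((n - k : ℤ) : ℝ) := by linarith
      have h3 : ((n - k : ℤ) : ℝ) < 1 := by linarith
      have h4 : 0 < n - k := by exact_mod_cast h2
      have h5 : n - k < 1 := by exact_mod_cast h3
      omega
  have key2 : ∀ x ∈ P2, ∀ k : ℤ, F x ≠ 2 * k + 1 := by
    intro x hx k hk
    have hθp := θlt x (by linarith [D2 x hx])
    have hθl := θ0 x
    by_cases hxU : x ∈ U
    · obtain ⟨n, hn⟩ := hFU x hxU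
      have h1 : ((k - n : ℤ) : ℝ) * 2 + 1 = θ x := by push_cast; linarith
      have h2 : (-1 : ℝ) < ((k - n : ℤ) : ℝ) := by linarith
      have h3 : ((k - n : ℤ) : ℝ) < 0 := by linarith
      have h4 : -1 < k - n := by exact_mod_cast h2
      have h5 : k - n < 0 := by exact_mod_cast h3
      omega
    · obtain ⟨n, hn⟩ := hFV x hxU
      have h1 : ((n - k : ℤ) : ℝ) * 2 = θ x + 1 := by push_cast; linarith
      have h2 : (0 : ℝ) < ((n - k : ℤ) : ℝ) := by linarith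
      have h3 : ((n - k : ℤ) : ℝ) < 1 := by linarith
      have h4 : 0 < n - k := by exact_mod_cast h2
      have h5 : n - k < 1 := by exact_mod_cast h3
      omega
  have p1 : ((0 : ℝ), (0 : ℝ)) ∈ P1 := Or.inl ⟨0, i0, rfl⟩
  have q1 : ((1 : ℝ), (1 : ℝ)) ∈ P1 := Or.inr ⟨1, i1, rfl⟩
  have p2 : ((0 : ℝ), (0 : ℝ)) ∈ P2 := Or.inl ⟨0, i0, rfl⟩
  have q2 : ((1 : ℝ), (1 : ℝ)) ∈ P2 := Or.inr ⟨1, i1, rfl⟩
  have r1 := (c1.image F F.continuous.continuousOn).ordConnected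
  have r2 := (c2.image F F.continuous.continuousOn).ordConnected
  -- `m' = m + 1` by the first path
  have hle : m + 1 ≤ m' := by
    by_contra hc
    push Not at hc
    have hc' : m' ≤ m := by omega
    have hc2 : (m' : ℝ) ≤ m := by exact_mod_cast hc'
    obtain ⟨x, hx, hx2⟩ := r1.out (mem_image_of_mem F q1) (mem_image_of_mem F p1)
      (show (2 * (m : ℝ)) ∈ Icc (F (1, 1)) (F (0, 0)) from ⟨by rw [hm']; linarith, by
        rw [hm]; linarith⟩)
    exact key1 x hx m hx2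
  have hge : m' ≤ m + 1 := by
    by_contra hc
    push Not at hc
    have hc' : m + 2 ≤ m' := by omega
    have hc2 : (m : ℝ) + 2 ≤ m' := by exact_mod_cast hc'
    obtain ⟨x, hx, hx2⟩ := r1.out (mem_image_of_mem F p1) (mem_image_of_mem F q1)
      (show (2 * ((m + 1 : ℤ) : ℝ)) ∈ Icc (F (0, 0)) (F (1, 1)) from ⟨by
        rw [hm]; push_cast; linarith, by rw [hm']; push_cast; linarith⟩)
    exact key1 x hx (m + 1) hx2
  have hmm : m' = m + 1 := le_antisymm hge hle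
  obtain ⟨x, hx, hx2⟩ := r2.out (mem_image_of_mem F p2) (mem_image_of_mem F q2)
    (show (2 * (m : ℝ) + 1) ∈ Icc (F (0, 0)) (F (1, 1)) from ⟨by rw [hm]; linarith, by
      rw [hm', hmm]; push_cast; linarith⟩)
  exact key2 x hx m hx2

/-- Approximate mountain climbing. -/
theorem climb (f g : ℝ → ℝ) (hf : ContinuousOn f (Icc 0 1)) (hg : ContinuousOn g (Icc 0 1))
    (m M : ℝ) (f0 : f 0 = m) (g0 : g 0 = m) (f1 : f 1 = M) (g1 : g 1 = M)
    (hf' : ∀ s ∈ Icc (0 : ℝ) 1, m ≤ f s ∧ f s ≤ M) (hg' : ∀ s ∈ Icc (0 : ℝ) 1, m ≤ g s ∧ g s ≤ M)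
    (ε : ℝ) (hε : 0 < ε) :
    ∃ u v : ℝ → ℝ, Continuous u ∧ Continuous v ∧ (∀ τ, u τ ∈ Icc (0 : ℝ) 1) ∧
      (∀ τ, v τ ∈ Icc (0 : ℝ) 1) ∧ u 0 = 0 ∧ v 0 = 0 ∧ u 1 = 1 ∧ v 1 = 1 ∧
      ∀ τ, |f (u τ) - g (v τ)| < ε := by
  have i0 : (0 : ℝ) ∈ Icc (0 : ℝ) 1 := ⟨le_rfl, zero_le_one⟩
  have i1 : (1 : ℝ) ∈ Icc (0 : ℝ) 1 := ⟨zero_le_one, le_rfl⟩
  set F : ℝ → ℝ := IccExtend zero_le_one ((Icc (0 : ℝ) 1).domRestrict f) with hF
  set G : ℝ → ℝ := IccExtend zero_le_one ((Icc (0 : ℝ) 1).domRestrict g) with hG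
  have hFc : Continuous F := (continuousOn_iff_continuous_domRestrict.1 hf).Icc_extend'
  have hGc : Continuous G := (continuousOn_iff_continuous_domRestrict.1 hg).Icc_extend'
  have hFe : ∀ s, F s = f (projIcc 0 1 zero_le_one s) := fun s => rfl
  have hGe : ∀ s, G s = g (projIcc 0 1 zero_le_one s) := fun s => rfl
  have hFi : ∀ s ∈ Icc (0 : ℝ) 1, F s = f s := fun s hs => by
    rw [hFe, projIcc_of_mem _ hs]
  have hGi : ∀ s ∈ Icc (0 : ℝ) 1, G s = g s := fun s hs => by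
    rw [hGe, projIcc_of_mem _ hs]
  have hj := joined (fun x => F x.1 - G x.2) (by fun_prop) ε hε
    (fun t ht => by
      show F 0 - G t ≤ 0
      rw [hFi 0 i0, hGi t ht, f0]
      linarith [(hg' t ht).1])
    (fun s hs => by
      show F s - G 1 ≤ 0
      rw [hFi s hs, hGi 1 i1, g1]
      linarith [(hf' s hs).2])
    (fun s hs => by
      show 0 ≤ F s - G 0
      rw [hFi s hs, hGi 0 i0, g0]
      linarith [(hf' s hs).1])
    (fun t ht => by
      show 0 ≤ F 1 - G t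
      rw [hFi 1 i1, hGi t ht, f1]
      linarith [(hg' t ht).2])
  obtain ⟨γ, hγ⟩ := hj
  have hγc : Continuous γ := γ.continuous
  refine ⟨fun τ => projIcc 0 1 zero_le_one (γ (projIcc 0 1 zero_le_one τ)).1,
    fun τ => projIcc 0 1 zero_le_one (γ (projIcc 0 1 zero_le_one τ)).2, ?_, ?_,
    fun τ => Subtype.coe_prop _, fun τ => Subtype.coe_prop _, ?_, ?_, ?_, ?_, ?_⟩
  · exact continuous_subtype_val.comp (continuous_projIcc.comp
      (continuous_fst.comp (hγc.comp continuous_projIcc)))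
  · exact continuous_subtype_val.comp (continuous_projIcc.comp
      (continuous_snd.comp (hγc.comp continuous_projIcc)))
  · have : projIcc 0 1 zero_le_one (0 : ℝ) = (0 : unitInterval) := projIcc_left _
    simp only [this, γ.source]
    simp
  · have : projIcc 0 1 zero_le_one (0 : ℝ) = (0 : unitInterval) := projIcc_left _
    simp only [this, γ.source]
    simp
  · have : projIcc 0 1 zero_le_one (1 : ℝ) = (1 : unitInterval) := projIcc_right _
    simp only [this, γ.target]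
    simp
  · have : projIcc 0 1 zero_le_one (1 : ℝ) = (1 : unitInterval) := projIcc_right _
    simp only [this, γ.target]
    simp
  · intro τ
    exact hγ (projIcc 0 1 zero_le_one τ)

end Pool.Agent.T2H33.Peg
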