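import Pool.Agent.T2H33.Peg.Corner

/-! Inscribed squares after a stretching or a shearing. -/

set_option autoImplicit false

open Set Topology

namespace Pool.Agent.T2H33.Peg

/-- `C` contains the vertices of a square -/
def HasSquare (C : Set ℂ) : Prop := ∃ z w : ℂ, w ≠ 0 ∧ z ∈ C ∧ z + w ∈ C ∧
  z + w + Complex.I * w ∈ C ∧ z + Complex.I * w ∈ C

/-- the two orientations -/
lemma sq_of (C : Set ℂ) (κ : ℂ) (hκ : κ = Complex.I ∨ κ = -Complex.I) (z w : ℂ) (hw : w ≠ 0)
    (h1 : z ∈ C) (h2 : z + w ∈ C) (h3 : z + w + κ * w ∈ C) (h4 : z + κ * w ∈ C) : HasSquare C := by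
  rcases hκ with rfl | rfl
  · exact ⟨z, w, hw, h1, h2, h3, h4⟩
  · refine ⟨z + -Complex.I * w, w, hw, h4, ?_, ?_, ?_⟩
    · have : z + -Complex.I * w + w = z + w + -Complex.I * w := by ring
      rw [this]; exact h3
    · have : z + -Complex.I * w + w + Complex.I * w = z + w := by ring
      rw [this]; exact h2
    · have : z + -Complex.I * w + Complex.I * w = z := by ring
      rw [this]; exact h1

/-- coordinates with respect to a basis -/
lemma coords (a b : ℂ) (hab : (a * (starRingEnd ℂ) b).im ≠ 0) (γ : Circle → ℂ) (hγ : Continuous γ)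
    (hinj : Function.Injective γ) :
    ∃ g : Circle → ℂ, Continuous g ∧ Function.Injective g ∧
      ∀ t, γ t = ((g t).re : ℂ) * a + ((g t).im : ℂ) * b := by
  set D : ℝ := (a * (starRingEnd ℂ) b).im with hD
  set x : ℂ → ℝ := fun z => (z * (starRingEnd ℂ) b).im / D with hx
  set y : ℂ → ℝ := fun z => -(z * (starRingEnd ℂ) a).im / D with hy
  have hxc : Continuous x := by
    simp only [hx]
    exact (Complex.continuous_im.comp (continuous_id.mul continuous_const)).div_const _
  have hyc : Continuous y := by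
    simp only [hy]
    exact (Complex.continuous_im.comp (continuous_id.mul continuous_const)).neg.div_const _
  have hz : ∀ z : ℂ, z = (x z : ℂ) * a + (y z : ℂ) * b := by
    intro z
    have hDe : D = a.im * b.re - a.re * b.im := by simp [hD]; ring
    have h1 : x z * D = z.im * b.re - z.re * b.im := by
      simp only [hx]
      rw [div_mul_cancel₀ _ hab]
      simp
      ring
    have h2 : y z * D = z.re * a.im - z.im * a.re := by
      simp only [hy]
      rw [div_mul_cancel₀ _ hab]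
      simp
      ring
    apply Complex.ext
    · rw [Complex.add_re, Complex.re_ofReal_mul, Complex.re_ofReal_mul]
      apply mul_right_cancel₀ hab
      have : (x z * a.re + y z * b.re) * D = (x z * D) * a.re + (y z * D) * b.re := by ring
      rw [this, h1, h2, hDe]
      ring
    · rw [Complex.add_im, Complex.im_ofReal_mul, Complex.im_ofReal_mul]
      apply mul_right_cancel₀ hab
      have : (x z * a.im + y z * b.im) * D = (x z * D) * a.im + (y z * D) * b.im := by ring
      rw [this, h1, h2, hDe]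
      ring
  refine ⟨fun t => ((x (γ t) : ℝ) : ℂ) + ((y (γ t) : ℝ) : ℂ) * Complex.I, ?_, ?_, ?_⟩
  · exact (Complex.continuous_ofReal.comp (hxc.comp hγ)).add
      ((Complex.continuous_ofReal.comp (hyc.comp hγ)).mul continuous_const)
  · intro s t h
    apply hinj
    have h1 := congrArg Complex.re h
    have h2 := congrArg Complex.im h
    simp at h1 h2
    rw [hz (γ s), hz (γ t), h1, h2]
  · intro t
    conv_lhs => rw [hz (γ t)]
    simp

/-- the rotation by a right angle in a basis -/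
lemma rot (a b : ℂ) (hab : (a * (starRingEnd ℂ) b).im ≠ 0) :
    ∃ κ : ℂ, (κ = Complex.I ∨ κ = -Complex.I) ∧ ∃ A₁ A₂ : ℝ, 0 < A₂ ∧
      κ * a = (A₁ : ℂ) * a + (A₂ : ℂ) * b ∧
      κ * b = (-(1 + A₁ ^ 2) / A₂ : ℝ) * a - (A₁ : ℂ) * b := by
  -- first one orientation
  set D : ℝ := (a * (starRingEnd ℂ) b).im with hD
  have ha : a ≠ 0 := by
    rintro rfl
    simp [hD] at hab
  have hna : Complex.normSq a ≠ 0 := by simpa using ha
  have hnp : 0 < Complex.normSq a := Complex.normSq_pos.2 ha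
  have hD0 : D = a.im * b.re - a.re * b.im := by simp [hD]; ring
  -- `I a = A₁ a + A₂ b`
  have base : ∃ A₁ A₂ : ℝ, A₂ ≠ 0 ∧ Complex.I * a = (A₁ : ℂ) * a + (A₂ : ℂ) * b := by
    refine ⟨(a.re * b.re + a.im * b.im) / D, -Complex.normSq a / D, ?_, ?_⟩
    · exact div_ne_zero (neg_ne_zero.2 hna) hab
    · rw [Complex.normSq_apply]
      have hD1 : a.im * b.re - a.re * b.im ≠ 0 := by rw [← hD0]; exact hab
      rw [hD0]
      apply Complex.ext
      · rw [Complex.add_re, Complex.re_ofReal_mul, Complex.re_ofReal_mul, Complex.I_mul_re]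
        field_simp
        ring
      · rw [Complex.add_im, Complex.im_ofReal_mul, Complex.im_ofReal_mul, Complex.I_mul_im,
          div_mul_eq_mul_div, div_mul_eq_mul_div, ← add_div, eq_div_iff hD1]
        ring
  obtain ⟨A₁, A₂, hA, h1⟩ := base
  have hAc : (A₂ : ℂ) ≠ 0 := by exact_mod_cast hA
  have h2 : Complex.I * b = (-(1 + A₁ ^ 2) / A₂ : ℝ) * a - (A₁ : ℂ) * b := by
    have h3 : (A₂ : ℂ) * (Complex.I * b) = -(1 + (A₁ : ℂ) ^ 2) * a - (A₁ : ℂ) * A₂ * b := by
      have h4 : (A₂ : ℂ) * b = Complex.I * a - (A₁ : ℂ) * a := by rw [h1]; ring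
      have h5 : (A₂ : ℂ) * (Complex.I * b) = Complex.I * ((A₂ : ℂ) * b) := by ring
      rw [h5, h4]
      have h6 : Complex.I * (Complex.I * a - (A₁ : ℂ) * a) = -a - (A₁ : ℂ) * (Complex.I * a) := by
        linear_combination (a) * Complex.I_mul_I
      rw [h6, h1]
      ring
    push_cast
    field_simp
    linear_combination h3
  rcases lt_or_gt_of_ne hA with h | h
  · refine ⟨-Complex.I, Or.inr rfl, -A₁, -A₂, by linarith, ?_, ?_⟩
    · push_cast
      linear_combination -h1
    · push_cast at h2 ⊢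
      have hAn : (-(A₂ : ℂ)) ≠ 0 := neg_ne_zero.2 hAc
      have : (-(1 + (-(A₁ : ℂ)) ^ 2) / -(A₂ : ℂ)) = -((-(1 + (A₁ : ℂ) ^ 2)) / A₂) := by
        rw [neg_sq, div_neg]
      rw [this]
      linear_combination -h2
  · exact ⟨Complex.I, Or.inl rfl, A₁, A₂, h, h1, h2⟩

/-- the stretching, when the direction is good -/
lemma stretch_good (γ : Circle → ℂ) (a b : ℂ) (hab : (a * (starRingEnd ℂ) b).im ≠ 0)
    (g : Circle → ℂ) (hg : Continuous g) (hgi : Function.Injective g)
    (hγg : ∀ t, γ t = ((g t).re : ℂ) * a + ((g t).im : ℂ) * b) (hgood : Good (range g)) :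
    ∃ r : ℝ, 0 < r ∧ ∀ L : ℂ →ₗ[ℝ] ℂ, L a = a → L b = r • b → HasSquare (L '' range γ) := by
  obtain ⟨n₁, n₂, hn₁, hn₂, S, hS, T, hT, hSm, hTm, hST1, hST2⟩ := hgood
  obtain ⟨κ, hκ, A₁, A₂, hA₂, ka, kb⟩ := rot a b hab
  set u : ℂ := ⟨n₂, -n₁⟩ with hu
  have hu0 : u ≠ 0 := by
    intro h
    have := congrArg Complex.re h
    simp [hu] at this
    linarith
  have him : ∀ z : ℂ, (z / u).im = (n₁ * z.re + n₂ * z.im) / Complex.normSq u := by
    intro z
    rw [Complex.div_im, Complex.normSq_apply]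
    simp only [hu]
    ring
  have hnu : 0 < Complex.normSq u := Complex.normSq_pos.2 hu0
  set F₁ : ℂ × ℝ → ℝ := fun x => x.1.re - A₁ * x.2 * n₂ with hF₁
  set F₂ : ℂ × ℝ → ℝ := fun x => x.1.im - A₁ * x.2 * n₁ with hF₂
  set F₃ : ℂ × ℝ → ℝ := fun x => F₁ x * F₂ x - (1 + A₁ ^ 2) * x.2 ^ 2 * (n₁ * n₂) with hF₃
  have c1 : Continuous F₁ := by simp only [hF₁]; fun_prop
  have c2 : Continuous F₂ := by simp only [hF₂]; fun_prop
  have c3 : Continuous F₃ := by simp only [hF₃]; fun_prop
  obtain ⟨z, w, l, hl, m1, m2, m3, m4, hcl, hnG⟩ := general g hg hgi u hu0 S T hS hT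
    (fun h => by rw [h] at hST1; exact lt_irrefl _ hST1)
    (fun z hz => by rw [him, him]; exact div_le_div_of_nonneg_right (hSm z hz) hnu.le)
    (fun z hz => by rw [him, him]; exact div_le_div_of_nonneg_right (hTm z hz) hnu.le)
    ({x | 0 < F₁ x} ∩ ({x | 0 < F₂ x} ∩ {x | 0 < F₃ x}))
    ((isOpen_lt continuous_const c1).inter ((isOpen_lt continuous_const c2).inter
      (isOpen_lt continuous_const c3)))
    (by
      have e1 : 0 < T.re - S.re := by linarith
      have e2 : 0 < T.im - S.im := by linarith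
      refine ⟨?_, ?_, ?_⟩
      · show 0 < F₁ _
        simp only [hF₁]
        simpa using hST1
      · show 0 < F₂ _
        simp only [hF₂]
        simpa using hST2
      · show 0 < F₃ _
        simp only [hF₃, hF₁, hF₂]
        simp
        exact mul_pos e1 e2)
    (fun l hl h => by
      have h3 : 0 < F₃ ((0 : ℂ), l) := h.2.2
      simp only [hF₃, hF₁, hF₂, Complex.zero_re, Complex.zero_im, zero_sub] at h3
      have : 0 < n₁ * n₂ * l ^ 2 := by positivity
      nlinarith)
  -- the closure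
  have g1 : 0 ≤ F₁ (w, l) := by
    have : ({x | 0 < F₁ x} ∩ ({x | 0 < F₂ x} ∩ {x | 0 < F₃ x}) : Set (ℂ × ℝ)) ⊆ {x | 0 ≤ F₁ x} :=
      fun x hx => show (0 : ℝ) ≤ F₁ x from le_of_lt hx.1
    exact closure_minimal this (isClosed_le continuous_const c1) hcl
  have g2 : 0 ≤ F₂ (w, l) := by
    have : ({x | 0 < F₁ x} ∩ ({x | 0 < F₂ x} ∩ {x | 0 < F₃ x}) : Set (ℂ × ℝ)) ⊆ {x | 0 ≤ F₂ x} :=
      fun x hx => show (0 : ℝ) ≤ F₂ x from le_of_lt hx.2.1
    exact closure_minimal this (isClosed_le continuous_const c2) hcl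
  have g3 : 0 ≤ F₃ (w, l) := by
    have : ({x | 0 < F₁ x} ∩ ({x | 0 < F₂ x} ∩ {x | 0 < F₃ x}) : Set (ℂ × ℝ)) ⊆ {x | 0 ≤ F₃ x} :=
      fun x hx => show (0 : ℝ) ≤ F₃ x from le_of_lt hx.2.2
    exact closure_minimal this (isClosed_le continuous_const c3) hcl
  have hprod : 0 < (1 + A₁ ^ 2) * l ^ 2 * (n₁ * n₂) := by positivity
  have g4 : 0 < F₁ (w, l) * F₂ (w, l) := by
    have : F₃ (w, l) = F₁ (w, l) * F₂ (w, l) - (1 + A₁ ^ 2) * l ^ 2 * (n₁ * n₂) := rfl
    linarith
  have g5 : 0 < F₁ (w, l) := by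
    rcases g1.lt_or_eq with h | h
    · exact h
    · rw [← h, zero_mul] at g4; exact absurd g4 (lt_irrefl _)
  have g6 : 0 < F₂ (w, l) := by
    rcases g2.lt_or_eq with h | h
    · exact h
    · rw [← h, mul_zero] at g4; exact absurd g4 (lt_irrefl _)
  have g7 : F₃ (w, l) = 0 := by
    refine le_antisymm ?_ g3
    by_contra hc
    push Not at hc
    exact hnG ⟨g5, g6, hc⟩
  simp only [hF₃, hF₁, hF₂] at g5 g6 g7
  set r : ℝ := (w.re - A₁ * l * n₂) * A₂ / ((1 + A₁ ^ 2) * (l * n₁)) with hr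
  have hr0 : 0 < r := by
    rw [hr]
    positivity
  refine ⟨r, hr0, fun L hLa hLb => ?_⟩
  have hL : ∀ x : ℂ, L ((x.re : ℂ) * a + (x.im : ℂ) * b) = (x.re : ℂ) * a + (r * x.im : ℂ) * b := by
    intro x
    rw [map_add, ← Complex.real_smul, ← Complex.real_smul, map_smul, map_smul, hLa, hLb,
      Complex.real_smul, Complex.real_smul, Complex.real_smul]
    ring
  have hmem : ∀ x ∈ range g, (x.re : ℂ) * a + (r * x.im : ℂ) * b ∈ L '' range γ := by
    rintro x ⟨t, rfl⟩
    exact ⟨γ t, mem_range_self t, by rw [hγg t]; exact hL (g t)⟩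
  -- the side of the square
  set P : ℂ := (l * n₂ : ℝ) * a + (r * (l * (-n₁)) : ℝ) * b with hP
  have hind : ∀ x y : ℝ, (x : ℂ) * a + (y : ℂ) * b = 0 → x = 0 ∧ y = 0 := by
    intro x y h
    have h1 : ((x : ℂ) * a + (y : ℂ) * b) * (starRingEnd ℂ) b = 0 := by rw [h, zero_mul]
    have h2 : ((x : ℂ) * a + (y : ℂ) * b) * (starRingEnd ℂ) a = 0 := by rw [h, zero_mul]
    have h3 := congrArg Complex.im h1
    have h4 := congrArg Complex.im h2
    simp at h3 h4 hab
    constructor
    · have : x * (a.im * b.re - a.re * b.im) = 0 := by linarith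
      rcases mul_eq_zero.1 this with h | h
      · exact h
      · exfalso; apply hab; linarith
    · have : y * (a.im * b.re - a.re * b.im) = 0 := by linarith
      rcases mul_eq_zero.1 this with h | h
      · exact h
      · exfalso; apply hab; linarith
  have hP0 : P ≠ 0 := by
    intro h
    have := (hind _ _ h).1
    have : 0 < l * n₂ := by positivity
    linarith
  have hrB : r * (l * n₁) * ((1 + A₁ ^ 2) / A₂) = w.re - A₁ * l * n₂ := by
    rw [hr]
    field_simp
  have hr2 : r * (w.im - A₁ * l * n₁) = A₂ * (l * n₂) := by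
    have h1 : (w.re - A₁ * l * n₂) * (w.im - A₁ * l * n₁) = (1 + A₁ ^ 2) * l ^ 2 * (n₁ * n₂) := by
      linarith
    have h2 : r * (w.im - A₁ * l * n₁) =
        ((w.re - A₁ * l * n₂) * (w.im - A₁ * l * n₁)) * A₂ / ((1 + A₁ ^ 2) * (l * n₁)) := by
      rw [hr]; ring
    rw [h2, h1]
    field_simp
  have hκP : κ * P = (w.re : ℂ) * a + (r * w.im : ℂ) * b := by
    have e1 : κ * P = (l * n₂ : ℝ) * (κ * a) + (r * (l * (-n₁)) : ℝ) * (κ * b) := by
      rw [hP]; ring
    rw [e1, ka, kb]
    have e2 : ((l * n₂ : ℝ) : ℂ) * ((A₁ : ℂ) * a + (A₂ : ℂ) * b) +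
        ((r * (l * (-n₁)) : ℝ) : ℂ) * (((-(1 + A₁ ^ 2) / A₂ : ℝ) : ℂ) * a - (A₁ : ℂ) * b) =
        ((l * n₂ * A₁ + r * (l * n₁) * ((1 + A₁ ^ 2) / A₂) : ℝ) : ℂ) * a +
        ((A₂ * (l * n₂) + r * (l * n₁) * A₁ : ℝ) : ℂ) * b := by
      push_cast
      ring
    rw [e2, hrB, ← hr2]
    push_cast
    ring
  refine sq_of _ κ hκ ((z.re : ℂ) * a + (r * z.im : ℂ) * b) P hP0 (hmem _ m1) ?_ ?_ ?_
  · have := hmem _ m2
    simp only [Complex.add_re, Complex.add_im, Complex.mul_re, Complex.mul_im, Complex.ofReal_re,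
      Complex.ofReal_im, hu] at this
    convert this using 1
    rw [hP]
    push_cast
    ring
  · have := hmem _ m4
    simp only [Complex.add_re, Complex.add_im, Complex.mul_re, Complex.mul_im, Complex.ofReal_re,
      Complex.ofReal_im, hu] at this
    convert this using 1
    rw [hκP, hP]
    push_cast
    ring
  · have := hmem _ m3
    simp only [Complex.add_re, Complex.add_im] at this
    convert this using 1
    rw [hκP]
    push_cast
    ring

/-- **Stretchings.** -/
theorem stretch (γ : Circle → ℂ) (hγ : Continuous γ) (hinj : Function.Injective γ) (a b : ℂ)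
    (hab : (a * (starRingEnd ℂ) b).im ≠ 0) :
    ∃ r : ℝ, 0 < r ∧ ∀ L : ℂ →ₗ[ℝ] ℂ, L a = a → L b = r • b → HasSquare (L '' range γ) := by
  obtain ⟨g, hg, hgi, hγg⟩ := coords a b hab γ hγ hinj
  have hx : ∃ z ∈ range g, ∃ y ∈ range g, z.re ≠ y.re := by
    by_contra hc
    push Not at hc
    refine not_line g hg hgi Complex.im Complex.continuous_im fun z hz y hy h => ?_
    exact Complex.ext (hc z hz y hy) h
  have hy : ∃ z ∈ range g, ∃ y ∈ range g, z.im ≠ y.im := by
    by_contra hc
    push Not at hc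
    refine not_line g hg hgi Complex.re Complex.continuous_re fun z hz y hy h => ?_
    exact Complex.ext h (hc z hz y hy)
  rcases good_or (range g) (isCompact_range hg) (range_nonempty g) hx hy with h | h
  · exact stretch_good γ a b hab g hg hgi hγg h
  · have hrg : mir '' range g = range (mir ∘ g) := by rw [range_comp]
    rw [hrg] at h
    obtain ⟨r, hr, hL⟩ := stretch_good γ (-a) b
      (by rw [neg_mul, Complex.neg_im]; exact neg_ne_zero.2 hab) (mir ∘ g) (mir_cont.comp hg)
      (by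
        intro s t h
        apply hgi
        have h1 := congrArg Complex.re h
        have h2 := congrArg Complex.im h
        simp [mir] at h1 h2
        exact Complex.ext h1 h2)
      (fun t => by
        rw [hγg t]
        simp [mir]) h
    exact ⟨r, hr, fun L hLa hLb => hL L (by rw [map_neg, hLa]) hLb⟩

/-- **Shearings.** -/
theorem shear (γ : Circle → ℂ) (hγ : Continuous γ) (hinj : Function.Injective γ) (a b : ℂ)
    (hab : (a * (starRingEnd ℂ) b).im ≠ 0) :
    ∃ s : ℝ, ∀ L : ℂ →ₗ[ℝ] ℂ, L a = a → L b = b + s • a → HasSquare (L '' range γ) := by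
  obtain ⟨g, hg, hgi, hγg⟩ := coords a b hab γ hγ hinj
  obtain ⟨κ, hκ, A₁, A₂, hA₂, ka, kb⟩ := rot a b hab
  have hne := range_nonempty g
  have hc := isCompact_range hg
  obtain ⟨S, hS, hSm⟩ := hc.exists_isMinOn hne Complex.continuous_im.continuousOn
  obtain ⟨T, hT, hTm⟩ := hc.exists_isMaxOn hne Complex.continuous_im.continuousOn
  have hSm' : ∀ z ∈ range g, S.im ≤ z.im := fun z hz => hSm hz
  have hTm' : ∀ z ∈ range g, z.im ≤ T.im := fun z hz => hTm hz
  have hST : S.im < T.im := by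
    rcases (hSm' T hT).lt_or_eq with h | h
    · exact h
    · exfalso
      refine not_line g hg hgi Complex.re Complex.continuous_re fun z hz y hy h' => ?_
      exact Complex.ext h' (by linarith [hSm' z hz, hTm' z hz, hSm' y hy, hTm' y hy])
  obtain ⟨z, w, l, hl, m1, m2, m3, m4, hcl, hnG⟩ := general g hg hgi 1 one_ne_zero S T hS hT
    (fun h => by rw [h] at hST; exact lt_irrefl _ hST)
    (fun z hz => by simpa using hSm' z hz) (fun z hz => by simpa using hTm' z hz)
    {x | A₂ * x.2 < x.1.im} (isOpen_lt (by fun_prop) (by fun_prop)) (by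
      show A₂ * 0 < (T - S).im
      simpa using hST)
    (fun l hl h => by
      have h' : A₂ * l < (0 : ℂ).im := h
      simp at h'
      have := mul_pos hA₂ hl
      linarith)
  have g1 : A₂ * l ≤ w.im := by
    have : ({x | A₂ * x.2 < x.1.im} : Set (ℂ × ℝ)) ⊆ {x | A₂ * x.2 ≤ x.1.im} :=
      fun x hx => show A₂ * x.2 ≤ x.1.im from le_of_lt hx
    exact closure_minimal this (isClosed_le (by fun_prop) (by fun_prop)) hcl
  have g2 : w.im ≤ A₂ * l := not_lt.1 hnG
  have g3 : w.im = A₂ * l := le_antisymm g2 g1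
  have hw0 : w.im ≠ 0 := by
    rw [g3]
    exact (mul_pos hA₂ hl).ne'
  set s : ℝ := (l * A₁ - w.re) / w.im with hs
  have hs2 : w.re + s * w.im = l * A₁ := by
    rw [hs]; field_simp; ring
  refine ⟨s, fun L hLa hLb => ?_⟩
  have hL : ∀ x : ℂ, L ((x.re : ℂ) * a + (x.im : ℂ) * b) =
      (x.re + s * x.im : ℂ) * a + (x.im : ℂ) * b := by
    intro x
    rw [map_add, ← Complex.real_smul, ← Complex.real_smul, map_smul, map_smul, hLa, hLb]
    simp only [Complex.real_smul]
    ring
  have hmem : ∀ x ∈ range g, (x.re + s * x.im : ℂ) * a + (x.im : ℂ) * b ∈ L '' range γ := by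
    rintro x ⟨t, rfl⟩
    exact ⟨γ t, mem_range_self t, by rw [hγg t]; exact hL (g t)⟩
  have ha : a ≠ 0 := by
    rintro rfl
    simp at hab
  have hP0 : (l : ℂ) * a ≠ 0 := mul_ne_zero (by exact_mod_cast hl.ne') ha
  have hκP : κ * ((l : ℂ) * a) = (w.re + s * w.im : ℂ) * a + (w.im : ℂ) * b := by
    have e1 : κ * ((l : ℂ) * a) = (l : ℂ) * (κ * a) := by ring
    have e2 : (w.re + s * w.im : ℂ) = ((w.re + s * w.im : ℝ) : ℂ) := by push_cast; ring
    rw [e1, ka, e2, hs2, g3]
    push_cast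
    ring
  refine sq_of _ κ hκ ((z.re + s * z.im : ℂ) * a + (z.im : ℂ) * b) ((l : ℂ) * a) hP0 (hmem _ m1)
    ?_ ?_ ?_
  · have := hmem _ m2
    simp only [Complex.add_re, Complex.add_im, Complex.mul_re, Complex.mul_im, Complex.ofReal_re,
      Complex.ofReal_im, Complex.one_re, Complex.one_im] at this
    convert this using 1
    push_cast
    ring
  · have := hmem _ m4
    simp only [Complex.add_re, Complex.add_im, Complex.mul_re, Complex.mul_im, Complex.ofReal_re,
      Complex.ofReal_im, Complex.one_re, Complex.one_im] at this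
    convert this using 1
    rw [hκP]
    push_cast
    ring
  · have := hmem _ m3
    simp only [Complex.add_re, Complex.add_im] at this
    convert this using 1
    rw [hκP]
    push_cast
    ring

end Pool.Agent.T2H33.Peg
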