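import Pool.Agent.T2H33.Peg.Fam

/-! The two arcs of a Jordan curve between two points; the inscribed parallelograms with a side in a
given direction. -/

set_option autoImplicit false

open Set Topology

namespace Pool.Agent.T2H33.Peg

/-- the two arcs between two points of a Jordan curve -/
lemma arcs (γ : Circle → ℂ) (hγ : Continuous γ) (hinj : Function.Injective γ) (a b : Circle)
    (hab : a ≠ b) :
    ∃ α β : ℝ → ℂ, Continuous α ∧ Continuous β ∧ α 0 = γ a ∧ β 0 = γ a ∧ α 1 = γ b ∧ β 1 = γ b ∧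
      (∀ s, α s ∈ range γ) ∧ (∀ s, β s ∈ range γ) ∧
      ∀ s ∈ Icc (0 : ℝ) 1, ∀ t ∈ Icc (0 : ℝ) 1, α s = β t → (s = 0 ∧ t = 0) ∨ (s = 1 ∧ t = 1) := by
  have hπ := Real.pi_pos
  obtain ⟨d, hd0, hd1, hd⟩ : ∃ d : ℝ, 0 < d ∧ d < 2 * Real.pi ∧ Circle.exp d = a⁻¹ * b := by
    set d0 : ℝ := Complex.arg ((a⁻¹ * b : Circle) : ℂ) with hd0
    have e0 : Circle.exp d0 = a⁻¹ * b := Circle.exp_arg _
    have hne : d0 ≠ 0 := by
      intro h
      rw [h, Circle.exp_zero] at e0
      exact hab (inv_mul_eq_one.1 e0.symm)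
    rcases lt_or_gt_of_ne hne with h | h
    · refine ⟨d0 + 2 * Real.pi, ?_, by linarith, ?_⟩
      · have := Complex.neg_pi_lt_arg ((a⁻¹ * b : Circle) : ℂ)
        linarith
      · rw [Circle.periodic_exp, e0]
    · refine ⟨d0, h, ?_, e0⟩
      have := Complex.arg_le_pi ((a⁻¹ * b : Circle) : ℂ)
      linarith
  refine ⟨fun s => γ (a * Circle.exp (s * d)), fun t => γ (a * Circle.exp (-(t * (2 * Real.pi - d)))),
    by fun_prop, by fun_prop, by simp, by simp, ?_, ?_, fun s => mem_range_self _,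
    fun s => mem_range_self _, ?_⟩
  · simp [hd]
  · simp only [one_mul]
    have : Circle.exp (-(2 * Real.pi - d)) = Circle.exp d := by
      rw [Circle.exp_eq_exp]
      exact ⟨-1, by push_cast; ring⟩
    rw [this, hd]
    simp
  · intro s hs t ht h
    have h1 := mul_left_cancel (hinj h)
    obtain ⟨m, hm⟩ := Circle.exp_eq_exp.1 h1
    have h2 : s * d + t * (2 * Real.pi - d) = m * (2 * Real.pi) := by linarith
    have h3 : 0 ≤ s * d := mul_nonneg hs.1 hd0.le
    have h4 : 0 ≤ t * (2 * Real.pi - d) := mul_nonneg ht.1 (by linarith)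
    have h5 : s * d ≤ d := by nlinarith [hs.2]
    have h6 : t * (2 * Real.pi - d) ≤ 2 * Real.pi - d := by nlinarith [ht.2]
    have m0 : (0 : ℝ) ≤ m := by
      by_contra hc
      push Not at hc
      nlinarith
    have m1 : (m : ℝ) ≤ 1 := by
      by_contra hc
      push Not at hc
      nlinarith
    have m0' : 0 ≤ m := by exact_mod_cast m0
    have m1' : m ≤ 1 := by exact_mod_cast m1
    have hm01 : m = 0 ∨ m = 1 := by omega
    rcases hm01 with rfl | rfl
    · left
      rw [Int.cast_zero, zero_mul] at h2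
      have a1 : s * d = 0 := by linarith
      have a2 : t * (2 * Real.pi - d) = 0 := by linarith
      constructor
      · rcases mul_eq_zero.1 a1 with h | h
        · exact h
        · linarith
      · rcases mul_eq_zero.1 a2 with h | h
        · exact h
        · linarith
    · right
      rw [Int.cast_one, one_mul] at h2
      have a1 : (1 - s) * d = 0 := by linarith
      have a2 : (1 - t) * (2 * Real.pi - d) = 0 := by linarith
      constructor
      · rcases mul_eq_zero.1 a1 with h | h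
        · linarith
        · linarith
      · rcases mul_eq_zero.1 a2 with h | h
        · linarith
        · linarith

/-- a Jordan curve does not lie on a line -/
lemma not_line (γ : Circle → ℂ) (hγ : Continuous γ) (hinj : Function.Injective γ) (f : ℂ → ℝ)
    (hf : Continuous f) : ¬ InjOn f (range γ) := by
  intro hfi
  have hne : (range γ).Nonempty := range_nonempty γ
  have hc : IsCompact (range γ) := isCompact_range hγ
  obtain ⟨S, ⟨a, rfl⟩, hS⟩ := hc.exists_isMinOn hne hf.continuousOn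
  obtain ⟨T, ⟨b, rfl⟩, hT⟩ := hc.exists_isMaxOn hne hf.continuousOn
  have hS' : ∀ z ∈ range γ, f (γ a) ≤ f z := fun z hz => hS hz
  have hT' : ∀ z ∈ range γ, f z ≤ f (γ b) := fun z hz => hT hz
  have hab : a ≠ b := by
    rintro rfl
    have hall : ∀ c : Circle, c = a := fun c => by
      apply hinj
      exact hfi (mem_range_self c) (mem_range_self a)
        (le_antisymm (hT' _ (mem_range_self c)) (hS' _ (mem_range_self c)))
    have h1 := hall 1
    have h2 := hall (-1)
    have h3 : (1 : Circle) = -1 := h1.trans h2.symm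
    have h4 : ((1 : Circle) : ℂ) = ((-1 : Circle) : ℂ) := by rw [← h3]
    simp at h4
    norm_num [Complex.ext_iff] at h4
  obtain ⟨α, β, hα, hβ, a0, b0, a1, b1, ha, hb, hab'⟩ := arcs γ hγ hinj a b hab
  have hival : f (α (1 / 2)) ∈ Icc (f (β 0)) (f (β 1)) := by
    rw [b0, b1]
    exact ⟨hS' _ (ha _), hT' _ (ha _)⟩
  obtain ⟨t, ht, hte⟩ := intermediate_value_Icc zero_le_one (f := fun t => f (β t))
    (hf.comp hβ).continuousOn hival
  have := hfi (hb t) (ha (1 / 2)) hte
  rcases hab' (1 / 2) ⟨by norm_num, by norm_num⟩ t ht this.symm with ⟨h, -⟩ | ⟨h, -⟩ <;> norm_num at h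

/-- **Inscribed parallelograms with a side in a given direction.** -/
theorem general (γ : Circle → ℂ) (hγ : Continuous γ) (hinj : Function.Injective γ) (u : ℂ)
    (hu : u ≠ 0) (S T : ℂ) (hS : S ∈ range γ) (hT : T ∈ range γ) (hne : S ≠ T)
    (hSm : ∀ z ∈ range γ, (S / u).im ≤ (z / u).im) (hTm : ∀ z ∈ range γ, (z / u).im ≤ (T / u).im)
    (G : Set (ℂ × ℝ)) (hG : IsOpen G) (hs : (T - S, (0 : ℝ)) ∈ G)
    (he : ∀ l : ℝ, 0 < l → ((0 : ℂ), l) ∉ G) :
    ∃ z w : ℂ, ∃ l : ℝ, 0 < l ∧ z ∈ range γ ∧ z + l * u ∈ range γ ∧ z + w ∈ range γ ∧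
      z + w + l * u ∈ range γ ∧ (w, l) ∈ closure G ∧ (w, l) ∉ G := by
  obtain ⟨a, rfl⟩ := hS
  obtain ⟨b, rfl⟩ := hT
  have hab : a ≠ b := fun h => hne (by rw [h])
  obtain ⟨α, β, hα, hβ, a0, b0, a1, b1, ha, hb, hab'⟩ := arcs γ hγ hinj a b hab
  have hM : Continuous fun x : ℂ × ℝ => (u * x.1, x.2) := by fun_prop
  obtain ⟨z, w, l, hl, h1, h2, h3, h4, h5, h6⟩ := exact_fam (fun s => α s / u) (fun t => β t / u)
    (by fun_prop) (by fun_prop) (by simp only [a0, b0]) (by simp only [a1, b1])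
    (fun s hs t ht h => hab' s hs t ht (by simpa [hu] using h))
    (fun s _ => by
      simp only [a0, a1]
      exact ⟨hSm _ (ha s), hTm _ (ha s)⟩)
    (fun s _ => by
      simp only [a0, a1]
      exact ⟨hSm _ (hb s), hTm _ (hb s)⟩)
    ((fun x : ℂ × ℝ => (u * x.1, x.2)) ⁻¹' G) (hG.preimage hM) (by
      show (u * (α 1 / u - α 0 / u), (0 : ℝ)) ∈ G
      rw [a1, a0, ← sub_div, mul_div_cancel₀ _ hu]
      exact hs)
    (fun l hl => by
      show (u * 0, l) ∉ G
      rw [mul_zero]
      exact he l hl)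
  have hmem : ∀ x ∈ (fun s => α s / u) '' Icc 0 1 ∪ (fun t => β t / u) '' Icc 0 1,
      u * x ∈ range γ := by
    rintro x (⟨s, _, rfl⟩ | ⟨s, _, rfl⟩)
    · simp only
      rw [mul_div_cancel₀ _ hu]
      exact ha s
    · simp only
      rw [mul_div_cancel₀ _ hu]
      exact hb s
  refine ⟨u * z, u * w, l, hl, hmem _ h1, ?_, ?_, ?_, ?_, h6⟩
  · have := hmem _ h2
    rw [mul_add, mul_comm u (l : ℂ)] at this
    exact this
  · have := hmem _ h3
    rw [mul_add] at this
    exact this
  · have := hmem _ h4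
    rw [mul_add, mul_add, mul_comm u (l : ℂ)] at this
    exact this
  · exact hM.closure_preimage_subset G h5

end Pool.Agent.T2H33.Peg
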