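import Pool.Agent.T2H33.Peg.Arcs

/-! Choice of a direction: supporting lines of a compact set. -/

set_option autoImplicit false

open Set Topology

namespace Pool.Agent.T2H33.Peg

/-- there are parallel supporting lines of negative slope with points `S` (below) and `T` (above) such
that `T - S` is in the open first quadrant -/
def Good (K : Set ℂ) : Prop := ∃ n₁ n₂ : ℝ, 0 < n₁ ∧ 0 < n₂ ∧ ∃ S ∈ K, ∃ T ∈ K,
  (∀ z ∈ K, n₁ * S.re + n₂ * S.im ≤ n₁ * z.re + n₂ * z.im) ∧
  (∀ z ∈ K, n₁ * z.re + n₂ * z.im ≤ n₁ * T.re + n₂ * T.im) ∧ S.re < T.re ∧ S.im < T.im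

/-- a first criterion: small slope -/
lemma good_of_lt (K : Set ℂ) (hK : IsCompact K) (hne : K.Nonempty) (A B : ℂ) (hA : A ∈ K)
    (hB : B ∈ K) (hAm : ∀ z ∈ K, z.im ≤ A.im) (hBm : ∀ z ∈ K, B.im ≤ z.im) (hAB : B.im < A.im)
    (hlt : B.re < A.re) : Good K := by
  obtain ⟨X, hX, hXm⟩ := hK.exists_isMaxOn hne Complex.continuous_re.continuousOn
  obtain ⟨Y, hY, hYm⟩ := hK.exists_isMinOn hne Complex.continuous_re.continuousOn
  have hXm' : ∀ z ∈ K, z.re ≤ X.re := fun z hz => hXm hz
  have hYm' : ∀ z ∈ K, Y.re ≤ z.re := fun z hz => hYm hz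
  have hw : 0 < X.re - Y.re := by linarith [hXm' A hA, hYm' B hB]
  set e : ℝ := (A.im - B.im) / (4 * (X.re - Y.re)) with he
  have he0 : 0 < e := div_pos (by linarith) (by linarith)
  have he1 : e * (X.re - Y.re) = (A.im - B.im) / 4 := by
    rw [he]; field_simp
  have hf : Continuous fun z : ℂ => e * z.re + z.im := by fun_prop
  obtain ⟨T, hT, hTm⟩ := hK.exists_isMaxOn hne hf.continuousOn
  obtain ⟨S, hS, hSm⟩ := hK.exists_isMinOn hne hf.continuousOn
  have hTm' : ∀ z ∈ K, e * z.re + z.im ≤ e * T.re + T.im := fun z hz => hTm hz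
  have hSm' : ∀ z ∈ K, e * S.re + S.im ≤ e * z.re + z.im := fun z hz => hSm hz
  have hTA : A.re ≤ T.re := by
    have h1 := hTm' A hA
    have h2 := hAm T hT
    by_contra hc
    push Not at hc
    nlinarith
  have hSB : S.re ≤ B.re := by
    have h1 := hSm' B hB
    have h2 := hBm S hS
    by_contra hc
    push Not at hc
    nlinarith
  refine ⟨e, 1, he0, one_pos, S, hS, T, hT, fun z hz => by simpa using hSm' z hz,
    fun z hz => by simpa using hTm' z hz, by linarith, ?_⟩
  have h1 := hTm' A hA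
  have h2 := hSm' B hB
  have h3 : e * (T.re - A.re) ≤ e * (X.re - Y.re) :=
    mul_le_mul_of_nonneg_left (by linarith [hXm' T hT, hYm' A hA]) he0.le
  have h4 : e * (B.re - S.re) ≤ e * (X.re - Y.re) :=
    mul_le_mul_of_nonneg_left (by linarith [hXm' B hB, hYm' S hS]) he0.le
  nlinarith

/-- swapping the coordinates -/
lemma good_swap (K : Set ℂ) (h : Good ((fun z : ℂ => (⟨z.im, z.re⟩ : ℂ)) '' K)) : Good K := by
  obtain ⟨n₁, n₂, h1, h2, S, ⟨S', hS', rfl⟩, T, ⟨T', hT', rfl⟩, hm, hM, h3, h4⟩ := h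
  refine ⟨n₂, n₁, h2, h1, S', hS', T', hT', fun z hz => ?_, fun z hz => ?_, h4, h3⟩
  · have := hm _ ⟨z, hz, rfl⟩
    simp only at this
    linarith
  · have := hM _ ⟨z, hz, rfl⟩
    simp only at this
    linarith

/-- the first criterion with the coordinates exchanged -/
lemma good_of_lt' (K : Set ℂ) (hK : IsCompact K) (hne : K.Nonempty) (A B : ℂ) (hA : A ∈ K)
    (hB : B ∈ K) (hAm : ∀ z ∈ K, z.re ≤ A.re) (hBm : ∀ z ∈ K, B.re ≤ z.re) (hAB : B.re < A.re)
    (hlt : B.im < A.im) : Good K := by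
  apply good_swap
  have hc : Continuous fun z : ℂ => (⟨z.im, z.re⟩ : ℂ) := by
    have : (fun z : ℂ => (⟨z.im, z.re⟩ : ℂ)) = fun z => (z.im : ℂ) + (z.re : ℂ) * Complex.I := by
      funext z
      apply Complex.ext <;> simp
    rw [this]
    fun_prop
  refine good_of_lt _ (hK.image hc) (hne.image _) ⟨A.im, A.re⟩ ⟨B.im, B.re⟩ ⟨A, hA, rfl⟩ ⟨B, hB, rfl⟩
    ?_ ?_ hAB hlt
  · rintro z ⟨y, hy, rfl⟩
    exact hAm y hy
  · rintro z ⟨y, hy, rfl⟩
    exact hBm y hy

/-- the mirror image -/
noncomputable def mir (z : ℂ) : ℂ := ⟨-z.re, z.im⟩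

lemma mir_cont : Continuous mir := by
  have : mir = fun z : ℂ => ((-z.re : ℝ) : ℂ) + (z.im : ℂ) * Complex.I := by
    funext z
    apply Complex.ext <;> simp [mir]
  rw [this]
  fun_prop

/-- **Choice of the direction.** -/
theorem good_or (K : Set ℂ) (hK : IsCompact K) (hne : K.Nonempty)
    (hx : ∃ z ∈ K, ∃ y ∈ K, z.re ≠ y.re) (hy : ∃ z ∈ K, ∃ y ∈ K, z.im ≠ y.im) :
    Good K ∨ Good (mir '' K) := by
  by_contra hcon
  rw [not_or] at hcon
  obtain ⟨hg, hg'⟩ := hcon
  have hK' := hK.image mir_cont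
  have hne' := hne.image mir
  -- extreme points
  obtain ⟨P, hP, hPm⟩ := hK.exists_isMaxOn hne Complex.continuous_im.continuousOn
  obtain ⟨Q, hQ, hQm⟩ := hK.exists_isMinOn hne Complex.continuous_im.continuousOn
  obtain ⟨X, hX, hXm⟩ := hK.exists_isMaxOn hne Complex.continuous_re.continuousOn
  obtain ⟨Y, hY, hYm⟩ := hK.exists_isMinOn hne Complex.continuous_re.continuousOn
  have hPm' : ∀ z ∈ K, z.im ≤ P.im := fun z hz => hPm hz
  have hQm' : ∀ z ∈ K, Q.im ≤ z.im := fun z hz => hQm hz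
  have hXm' : ∀ z ∈ K, z.re ≤ X.re := fun z hz => hXm hz
  have hYm' : ∀ z ∈ K, Y.re ≤ z.re := fun z hz => hYm hz
  have hPQ : Q.im < P.im := by
    obtain ⟨z, hz, y, hy', hzy⟩ := hy
    rcases lt_or_gt_of_ne hzy with h | h
    · linarith [hPm' y hy', hQm' z hz]
    · linarith [hPm' z hz, hQm' y hy']
  have hXY : Y.re < X.re := by
    obtain ⟨z, hz, y, hy', hzy⟩ := hx
    rcases lt_or_gt_of_ne hzy with h | h
    · linarith [hXm' y hy', hYm' z hz]
    · linarith [hXm' z hz, hYm' y hy']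
  -- highest and lowest points have the same abscissa
  have c1 : ∀ A ∈ K, ∀ B ∈ K, A.im = P.im → B.im = Q.im → A.re = B.re := by
    intro A hA B hB hA2 hB2
    rcases lt_trichotomy A.re B.re with h | h | h
    · exfalso
      apply hg'
      refine good_of_lt _ hK' hne' (mir A) (mir B) ⟨A, hA, rfl⟩ ⟨B, hB, rfl⟩ ?_ ?_ ?_ ?_
      · rintro z ⟨y, hy, rfl⟩
        show y.im ≤ A.im
        rw [hA2]; exact hPm' y hy
      · rintro z ⟨y, hy, rfl⟩
        show B.im ≤ y.im
        rw [hB2]; exact hQm' y hy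
      · show B.im < A.im
        rw [hA2, hB2]; exact hPQ
      · show -B.re < -A.re
        linarith
    · exact h
    · exfalso
      apply hg
      refine good_of_lt _ hK hne A B hA hB ?_ ?_ ?_ h
      · intro y hy
        rw [hA2]; exact hPm' y hy
      · intro y hy
        rw [hB2]; exact hQm' y hy
      · rw [hA2, hB2]; exact hPQ
  have c2 : ∀ A ∈ K, ∀ B ∈ K, A.re = X.re → B.re = Y.re → A.im = B.im := by
    intro A hA B hB hA2 hB2
    rcases lt_trichotomy A.im B.im with h | h | h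
    · exfalso
      apply hg'
      refine good_of_lt' _ hK' hne' (mir B) (mir A) ⟨B, hB, rfl⟩ ⟨A, hA, rfl⟩ ?_ ?_ ?_ ?_
      · rintro z ⟨y, hy, rfl⟩
        show -y.re ≤ -B.re
        rw [hB2]; linarith [hYm' y hy]
      · rintro z ⟨y, hy, rfl⟩
        show -A.re ≤ -y.re
        rw [hA2]; linarith [hXm' y hy]
      · show -A.re < -B.re
        rw [hA2, hB2]; linarith
      · exact h
    · exact h
    · exfalso
      apply hg
      refine good_of_lt' _ hK hne A B hA hB ?_ ?_ ?_ h
      · intro y hy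
        rw [hA2]; exact hXm' y hy
      · intro y hy
        rw [hB2]; exact hYm' y hy
      · rw [hA2, hB2]; exact hXY
  -- so the extreme points are unique
  have t1 : ∀ A ∈ K, A.im = P.im → A = P := fun A hA h => by
    apply Complex.ext _ h
    rw [c1 A hA Q hQ h rfl, c1 P hP Q hQ rfl rfl]
  have t2 : ∀ A ∈ K, A.im = Q.im → A = Q := fun A hA h => by
    apply Complex.ext _ h
    rw [← c1 P hP A hA rfl h, ← c1 P hP Q hQ rfl rfl]
  have t3 : ∀ A ∈ K, A.re = X.re → A = X := fun A hA h => by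
    apply Complex.ext h
    rw [c2 A hA Y hY h rfl, c2 X hX Y hY rfl rfl]
  have t4 : ∀ A ∈ K, A.re = Y.re → A = Y := fun A hA h => by
    apply Complex.ext h
    rw [← c2 X hX A hA rfl h, ← c2 X hX Y hY rfl rfl]
  have hPQr : P.re = Q.re := c1 P hP Q hQ rfl rfl
  have hXYi : X.im = Y.im := c2 X hX Y hY rfl rfl
  have x1 : P.re < X.re := by
    rcases (hXm' P hP).lt_or_eq with h | h
    · exact h
    · exfalso
      have e1 := t3 P hP h
      have e2 := t3 Q hQ (by rw [← hPQr]; exact h)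
      rw [e1, e2] at hPQ
      exact lt_irrefl _ hPQ
  have x2 : Y.re < P.re := by
    rcases (hYm' P hP).lt_or_eq with h | h
    · exact h
    · exfalso
      have e1 := t4 P hP h.symm
      have e2 := t4 Q hQ (by rw [← hPQr]; exact h.symm)
      rw [e1, e2] at hPQ
      exact lt_irrefl _ hPQ
  have x3 : X.im < P.im := by
    rcases (hPm' X hX).lt_or_eq with h | h
    · exact h
    · exfalso
      have e1 := t1 X hX h
      have e2 := t1 Y hY (by rw [← hXYi]; exact h)
      rw [e1, e2] at hXY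
      exact lt_irrefl _ hXY
  have x4 : Q.im < X.im := by
    rcases (hQm' X hX).lt_or_eq with h | h
    · exact h
    · exfalso
      have e1 := t2 X hX h.symm
      have e2 := t2 Y hY (by rw [← hXYi]; exact h.symm)
      rw [e1, e2] at hXY
      exact lt_irrefl _ hXY
  -- the direction of the line `P X`
  set n₁ : ℝ := P.im - X.im with hn₁
  set n₂ : ℝ := X.re - P.re with hn₂
  have p1 : 0 < n₁ := by linarith
  have p2 : 0 < n₂ := by linarith
  have hPX : n₁ * P.re + n₂ * P.im = n₁ * X.re + n₂ * X.im := by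
    rw [hn₁, hn₂]; ring
  have hf : Continuous fun z : ℂ => n₁ * z.re + n₂ * z.im := by fun_prop
  obtain ⟨T, hT, hTm⟩ := hK.exists_isMaxOn hne hf.continuousOn
  obtain ⟨S, hS, hSm⟩ := hK.exists_isMinOn hne hf.continuousOn
  have hTm' : ∀ z ∈ K, n₁ * z.re + n₂ * z.im ≤ n₁ * T.re + n₂ * T.im := fun z hz => hTm hz
  have hSm' : ∀ z ∈ K, n₁ * S.re + n₂ * S.im ≤ n₁ * z.re + n₂ * z.im := fun z hz => hSm hz
  have sx : S.re ≤ P.re := by
    have h1 := hSm' Q hQ
    have h2 := hQm' S hS
    by_contra hc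
    push Not at hc
    rw [hPQr] at hc
    nlinarith
  have sy : S.im ≤ X.im := by
    have h1 := hSm' Y hY
    have h2 := hYm' S hS
    by_contra hc
    push Not at hc
    rw [hXYi] at hc
    nlinarith
  have tx : P.re ≤ T.re := by
    have h1 := hTm' P hP
    have h2 := hPm' T hT
    by_contra hc
    push Not at hc
    nlinarith
  have ty : X.im ≤ T.im := by
    have h1 := hTm' X hX
    have h2 := hXm' T hT
    by_contra hc
    push Not at hc
    nlinarith
  -- if `S.re = P.re` then `S = Q`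
  have sQ : S.re = P.re → S = Q := by
    intro h
    apply t2 S hS
    have h1 := hSm' Q hQ
    have h2 := hQm' S hS
    rw [h, hPQr] at h1
    refine le_antisymm ?_ h2
    nlinarith
  have sY : S.im = X.im → S = Y := by
    intro h
    apply t4 S hS
    have h1 := hSm' Y hY
    have h2 := hYm' S hS
    rw [h, hXYi] at h1
    refine le_antisymm ?_ h2
    nlinarith
  have tP : T.re = P.re → T = P := by
    intro h
    apply t1 T hT
    have h1 := hTm' P hP
    have h2 := hPm' T hT
    rw [h] at h1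
    refine le_antisymm h2 ?_
    nlinarith
  have tX : T.im = X.im → T = X := by
    intro h
    apply t3 T hT
    have h1 := hTm' X hX
    have h2 := hXm' T hT
    rw [h] at h1
    refine le_antisymm h2 ?_
    nlinarith
  by_cases hSQ : S = Q
  · -- take `T` different from `P`
    by_cases hTP : T = P
    · apply hg
      refine ⟨n₁, n₂, p1, p2, S, hS, X, hX, hSm', fun z hz => ?_, ?_, ?_⟩
      · rw [← hPX, ← hTP]; exact hTm' z hz
      · rw [hSQ, ← hPQr]; exact x1
      · rw [hSQ]; exact x4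
    · apply hg
      refine ⟨n₁, n₂, p1, p2, S, hS, T, hT, hSm', hTm', ?_, ?_⟩
      · rw [hSQ, ← hPQr]
        exact lt_of_le_of_ne tx fun h => hTP (tP h.symm)
      · rw [hSQ]
        linarith
  · have hsx : S.re < P.re := lt_of_le_of_ne sx fun h => hSQ (sQ h)
    by_cases hSY : S = Y
    · by_cases hTX : T = X
      · apply hg
        refine ⟨n₁, n₂, p1, p2, S, hS, P, hP, hSm', fun z hz => ?_, hsx, ?_⟩
        · rw [hPX, ← hTX]; exact hTm' z hz
        · rw [hSY, ← hXYi]; exact x3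
      · apply hg
        refine ⟨n₁, n₂, p1, p2, S, hS, T, hT, hSm', hTm', by linarith, ?_⟩
        rw [hSY, ← hXYi]
        exact lt_of_le_of_ne ty fun h => hTX (tX h.symm)
    · apply hg
      have hsy : S.im < X.im := lt_of_le_of_ne sy fun h => hSY (sY h)
      exact ⟨n₁, n₂, p1, p2, S, hS, T, hT, hSm', hTm', by linarith, by linarith⟩

end Pool.Agent.T2H33.Peg
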