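import Pool.Agent.T2H33.Peg.AMC

/-! Inscribed parallelograms with a horizontal side: the family from the segment between a lowest and
a highest point to the horizontal chords, by climbing twice. -/

set_option autoImplicit false

open Set Topology

namespace Pool.Agent.T2H33.Peg

/-- first exit of a path from an open set -/
lemma exit {X : Type*} [TopologicalSpace X] (W : ℝ → X) (hW : Continuous W) (G : Set X)
    (hG : IsOpen G) (h0 : W 0 ∈ G) (h1 : W 1 ∉ G) :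
    ∃ τ ∈ Icc (0 : ℝ) 1, W τ ∈ closure G ∧ W τ ∉ G := by
  set E : Set ℝ := Icc 0 1 ∩ W ⁻¹' Gᶜ with hE
  have hEc : IsClosed E := isClosed_Icc.inter (hG.isClosed_compl.preimage hW)
  have hEn : E.Nonempty := ⟨1, ⟨zero_le_one, le_rfl⟩, h1⟩
  have hEb : BddBelow E := ⟨0, fun x hx => hx.1.1⟩
  have hm := hEc.csInf_mem hEn hEb
  set τ := sInf E with hτ
  have hτ0 : 0 < τ := by
    rcases hm.1.1.lt_or_eq with h | h
    · exact h
    · exfalso
      have := hm.2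
      rw [← h] at this
      exact this h0
  refine ⟨τ, hm.1, ?_, hm.2⟩
  have hcl : τ ∈ closure (Ico 0 τ) := by
    rw [closure_Ico hτ0.ne]
    exact ⟨hτ0.le, le_rfl⟩
  have hsub : W '' Ico 0 τ ⊆ G := by
    rintro x ⟨y, hy, rfl⟩
    by_contra hc
    have : y ∈ E := ⟨⟨hy.1, hy.2.le.trans hm.1.2⟩, hc⟩
    exact absurd (csInf_le hEb this) (not_le.2 hy.2)
  exact closure_mono hsub (image_closure_subset_closure_image hW ⟨τ, hcl, rfl⟩)

section

variable (α β : ℝ → ℂ)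

/-- the chord of a pair of parameters -/
noncomputable def ch (P : ℝ × ℝ) : ℂ := α P.1 - β P.2

lemma ch_cont (hα : Continuous α) (hβ : Continuous β) : Continuous (ch α β) := by
  unfold ch
  exact (hα.comp continuous_fst).sub (hβ.comp continuous_snd)

/-- the scale -/
lemma scale (hα : Continuous α) (hβ : Continuous β)
    (hne : ∀ s ∈ Icc (0 : ℝ) 1, ∀ t ∈ Icc (0 : ℝ) 1, α s = β t → (s = 0 ∧ t = 0) ∨ (s = 1 ∧ t = 1))
    (δ : ℝ) (hδ : 0 < δ) (r : ℝ) (hr : 0 < r) :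
    ∃ l : ℝ, 0 < l ∧ l < r ∧ ∀ P ∈ Icc (0 : ℝ) 1 ×ˢ Icc (0 : ℝ) 1, ‖ch α β P‖ ≤ l →
      (P.1 ≤ δ ∧ P.2 ≤ δ) ∨ (1 - δ ≤ P.1 ∧ 1 - δ ≤ P.2) := by
  set K : Set (ℝ × ℝ) := (Icc (0 : ℝ) 1 ×ˢ Icc (0 : ℝ) 1) \
    (({P | P.1 < δ} ∩ {P | P.2 < δ}) ∪ ({P | 1 - δ < P.1} ∩ {P | 1 - δ < P.2})) with hK
  have hKc : IsCompact K := by
    refine (isCompact_Icc.prod isCompact_Icc).diff ?_
    refine (IsOpen.inter ?_ ?_).union (IsOpen.inter ?_ ?_)
    · exact isOpen_lt continuous_fst continuous_const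
    · exact isOpen_lt continuous_snd continuous_const
    · exact isOpen_lt continuous_const continuous_fst
    · exact isOpen_lt continuous_const continuous_snd
  have hc := (ch_cont α β hα hβ).norm
  rcases K.eq_empty_or_nonempty with h | h
  · refine ⟨r / 2, by linarith, by linarith, fun P hP _ => ?_⟩
    by_contra hcon
    have : P ∈ K := by
      refine ⟨hP, fun h' => hcon ?_⟩
      rcases h' with ⟨a, b⟩ | ⟨a, b⟩
      · exact Or.inl ⟨le_of_lt a, le_of_lt b⟩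
      · exact Or.inr ⟨le_of_lt a, le_of_lt b⟩
    rw [h] at this
    exact this
  · obtain ⟨Q, hQ, hQm⟩ := hKc.exists_isMinOn h hc.continuousOn
    have hpos : 0 < ‖ch α β Q‖ := by
      rw [norm_pos_iff]
      intro h0
      have h1 : α Q.1 = β Q.2 := sub_eq_zero.1 h0
      apply hQ.2
      rcases hne Q.1 hQ.1.1 Q.2 hQ.1.2 h1 with ⟨a, b⟩ | ⟨a, b⟩
      · refine Or.inl ⟨?_, ?_⟩
        · show Q.1 < δ
          rw [a]; exact hδ
        · show Q.2 < δ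
          rw [b]; exact hδ
      · refine Or.inr ⟨?_, ?_⟩
        · show 1 - δ < Q.1
          rw [a]; linarith
        · show 1 - δ < Q.2
          rw [b]; linarith
    refine ⟨min (‖ch α β Q‖ / 2) (r / 2), by positivity, ?_, ?_⟩
    · exact (min_le_right _ _).trans_lt (by linarith)
    · intro P hP hl
      by_contra hcon
      have hPK : P ∈ K := by
        refine ⟨hP, fun h' => hcon ?_⟩
        rcases h' with ⟨a, b⟩ | ⟨a, b⟩
        · exact Or.inl ⟨le_of_lt a, le_of_lt b⟩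
        · exact Or.inr ⟨le_of_lt a, le_of_lt b⟩
      have h2 : ‖ch α β Q‖ ≤ ‖ch α β P‖ := hQm hPK
      have h3 := hl.trans (min_le_left _ _)
      linarith

/-- the middle part of the first climb -/
lemma middle (L : ℝ → ℝ) (hL : Continuous L) (a b : ℝ → Prop) (ha : IsClosed {τ | a τ})
    (hb : IsClosed {τ | b τ}) (hab : ∀ τ, a τ → b τ → False) (l : ℝ)
    (hl : ∀ τ ∈ Icc (0 : ℝ) 1, L τ ≤ l → a τ ∨ b τ) (a0 : a 0) (b1 : b 1) (L0 : L 0 ≤ l)
    (L1 : L 1 ≤ l) :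
    ∃ p q : ℝ, 0 ≤ p ∧ p < q ∧ q ≤ 1 ∧ a p ∧ b q ∧ L p = l ∧ L q = l ∧
      ∀ τ ∈ Icc p q, l ≤ L τ := by
  set E : Set ℝ := (Icc 0 1 ∩ {τ | L τ ≤ l}) ∩ {τ | b τ} with hE
  have hEc : IsClosed E := (isClosed_Icc.inter (isClosed_le hL continuous_const)).inter hb
  have hEn : E.Nonempty := ⟨1, ⟨⟨zero_le_one, le_rfl⟩, L1⟩, b1⟩
  have hEb : BddBelow E := ⟨0, fun x hx => hx.1.1.1⟩
  have hq := hEc.csInf_mem hEn hEb
  set q := sInf E with hqd
  set E' : Set ℝ := (Icc 0 q ∩ {τ | L τ ≤ l}) ∩ {τ | a τ} with hE'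
  have hEc' : IsClosed E' := (isClosed_Icc.inter (isClosed_le hL continuous_const)).inter ha
  have hEn' : E'.Nonempty := ⟨0, ⟨⟨le_rfl, hq.1.1.1⟩, L0⟩, a0⟩
  have hEb' : BddAbove E' := ⟨q, fun x hx => hx.1.1.2⟩
  have hp := hEc'.csSup_mem hEn' hEb'
  set p := sSup E' with hpd
  have hpq : p < q := by
    rcases hp.1.1.2.lt_or_eq with h | h
    · exact h
    · exfalso
      refine hab q ?_ hq.2
      rw [← h]
      exact hp.2
  have hmid : ∀ τ ∈ Ioo p q, l ≤ L τ := by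
    intro τ hτ
    by_contra hc
    push Not at hc
    have h01 : τ ∈ Icc (0 : ℝ) 1 := ⟨hp.1.1.1.trans hτ.1.le, hτ.2.le.trans hq.1.1.2⟩
    rcases hl τ h01 hc.le with h | h
    · have : τ ∈ E' := ⟨⟨⟨h01.1, hτ.2.le⟩, hc.le⟩, h⟩
      exact absurd (le_csSup hEb' this) (not_le.2 hτ.1)
    · have : τ ∈ E := ⟨⟨h01, hc.le⟩, h⟩
      exact absurd (csInf_le hEb this) (not_le.2 hτ.2)
  have hall : ∀ τ ∈ Icc p q, l ≤ L τ := by
    have h1 : Icc p q ⊆ {τ | l ≤ L τ} := by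
      rw [← closure_Ioo hpq.ne]
      exact closure_minimal hmid (isClosed_le continuous_const hL)
    exact h1
  refine ⟨p, q, hp.1.1.1, hpq, hq.1.1.2, hp.2, hq.2, ?_, ?_, hall⟩
  · exact le_antisymm hp.1.2 (hall p ⟨le_rfl, hpq.le⟩)
  · exact le_antisymm hq.1.2 (hall q ⟨hpq.le, le_rfl⟩)

/-- approximate version -/
lemma approx (hα : Continuous α) (hβ : Continuous β) (h0 : α 0 = β 0) (h1 : α 1 = β 1)
    (hαN : ∀ s ∈ Icc (0 : ℝ) 1, (α 0).im ≤ (α s).im ∧ (α s).im ≤ (α 1).im)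
    (hβN : ∀ s ∈ Icc (0 : ℝ) 1, (α 0).im ≤ (β s).im ∧ (β s).im ≤ (α 1).im)
    (G : Set (ℂ × ℝ)) (hG : IsOpen G) (he : ∀ l : ℝ, 0 < l → ((0 : ℂ), l) ∉ G)
    (δ : ℝ) (hδ : δ ≤ 1 / 4) (hδ0 : 0 < δ) (l : ℝ) (hl : 0 < l)
    (hsc : ∀ P ∈ Icc (0 : ℝ) 1 ×ˢ Icc (0 : ℝ) 1, ‖ch α β P‖ ≤ l →
      (P.1 ≤ δ ∧ P.2 ≤ δ) ∨ (1 - δ ≤ P.1 ∧ 1 - δ ≤ P.2))
    (hst : ∀ s ∈ Icc (0 : ℝ) 1, ∀ s' ∈ Icc (0 : ℝ) 1, s ≤ δ → 1 - δ ≤ s' → (α s' - α s, l) ∈ G)
    (ε : ℝ) (hε : 0 < ε) (hεl : ε < l) :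
    ∃ P ∈ Icc (0 : ℝ) 1 ×ˢ Icc (0 : ℝ) 1, ∃ Q ∈ Icc (0 : ℝ) 1 ×ˢ Icc (0 : ℝ) 1,
      |(ch α β P).im| ≤ ε ∧ |(ch α β Q).im| ≤ ε ∧ |‖ch α β P‖ - ‖ch α β Q‖| ≤ ε ∧
      l ≤ ‖ch α β P‖ ∧ 0 ≤ (ch α β P).re * (ch α β Q).re ∧
      (α Q.1 - α P.1, ‖ch α β P‖) ∈ closure G ∧ (α Q.1 - α P.1, ‖ch α β P‖) ∉ G := by
  obtain ⟨u, v, hu, hv, hu1, hv1, u0, v0, u1, v1, huv⟩ := climb (fun s => (α s).im)
    (fun t => (β t).im) (Complex.continuous_im.comp hα).continuousOn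
    (Complex.continuous_im.comp hβ).continuousOn (α 0).im (α 1).im rfl (by rw [h0]) rfl (by rw [h1])
    hαN hβN ε hε
  set R : ℝ → ℝ × ℝ := fun τ => (u τ, v τ) with hR
  have hRc : Continuous R := hu.prodMk hv
  have hRm : ∀ τ, R τ ∈ Icc (0 : ℝ) 1 ×ˢ Icc (0 : ℝ) 1 := fun τ => ⟨hu1 τ, hv1 τ⟩
  have hC := ch_cont α β hα hβ
  have hRim : ∀ τ, |(ch α β (R τ)).im| < ε := by
    intro τ
    have : (ch α β (R τ)).im = (α (u τ)).im - (β (v τ)).im := by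
      simp [ch, hR]
    rw [this]
    exact huv τ
  set L : ℝ → ℝ := fun τ => ‖ch α β (R τ)‖ with hL
  have hLc : Continuous L := (hC.comp hRc).norm
  obtain ⟨p, q, hp0, hpq, hq1, hpa, hqb, hLp, hLq, hmid⟩ := middle L hLc
    (fun τ => u τ ≤ δ ∧ v τ ≤ δ) (fun τ => 1 - δ ≤ u τ ∧ 1 - δ ≤ v τ)
    ((isClosed_le hu continuous_const).inter (isClosed_le hv continuous_const))
    ((isClosed_le continuous_const hu).inter (isClosed_le continuous_const hv))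
    (fun τ h1 h2 => by linarith [h1.1, h2.1]) l (fun τ _ h => hsc (R τ) (hRm τ) h)
    ⟨by rw [u0]; exact hδ0.le, by rw [v0]; exact hδ0.le⟩
    ⟨by rw [u1]; linarith, by rw [v1]; linarith⟩
    (by simp [hL, hR, ch, u0, v0, h0, hl.le]) (by simp [hL, hR, ch, u1, v1, h1, hl.le])
  -- the maximum
  obtain ⟨σ, hσ, hσm⟩ := isCompact_Icc.exists_isMaxOn (nonempty_Icc.2 hpq.le) hLc.continuousOn
  have hσm' : ∀ τ ∈ Icc p q, L τ ≤ L σ := fun τ hτ => hσm hτ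
  -- points between
  have in1 : ∀ x ∈ Icc (0 : ℝ) 1, p + x * (σ - p) ∈ Icc p q := by
    intro x hx
    constructor
    · nlinarith [mul_nonneg hx.1 (sub_nonneg.2 hσ.1)]
    · nlinarith [mul_le_mul_of_nonneg_right hx.2 (sub_nonneg.2 hσ.1), hσ.2]
  have in2 : ∀ x ∈ Icc (0 : ℝ) 1, q + x * (σ - q) ∈ Icc p q := by
    intro x hx
    constructor
    · nlinarith [mul_le_mul_of_nonneg_right hx.2 (sub_nonneg.2 hσ.2), hσ.1]
    · nlinarith [mul_nonneg hx.1 (sub_nonneg.2 hσ.2)]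
  obtain ⟨x, y, hx, hy, hx1, hy1, x0, y0, x1, y1, hxy⟩ := climb (fun x => L (p + x * (σ - p)))
    (fun x => L (q + x * (σ - q))) (by fun_prop) (by fun_prop) l (L σ) (by simpa using hLp)
    (by simpa using hLq) (by simp) (by simp)
    (fun s hs => ⟨hmid _ (in1 s hs), hσm' _ (in1 s hs)⟩)
    (fun s hs => ⟨hmid _ (in2 s hs), hσm' _ (in2 s hs)⟩) ε hε
  set A : ℝ → ℝ := fun τ => p + x τ * (σ - p) with hA
  set B : ℝ → ℝ := fun τ => q + y τ * (σ - q) with hB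
  have hAc : Continuous A := by fun_prop
  have hBc : Continuous B := by fun_prop
  have hA1 : ∀ τ, A τ ∈ Icc p q := fun τ => in1 _ (hx1 τ)
  have hB1 : ∀ τ, B τ ∈ Icc p q := fun τ => in2 _ (hy1 τ)
  obtain ⟨τ, hτ, hcl, hnG⟩ := exit (fun τ => (α (u (B τ)) - α (u (A τ)), L (A τ)))
    (by fun_prop) G hG (by
      have e1 : A 0 = p := by simp [hA, x0]
      have e2 : B 0 = q := by simp [hB, y0]
      simp only [e1, e2, hLp]
      exact hst _ (hu1 p) _ (hu1 q) hpa.1 hqb.1) (by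
      have e1 : A 1 = σ := by simp [hA, x1]
      have e2 : B 1 = σ := by simp [hB, y1]
      simp only [e1, e2, sub_self]
      exact he _ (lt_of_lt_of_le hl (hmid σ hσ)))
  refine ⟨R (A τ), hRm _, R (B τ), hRm _, (hRim _).le, (hRim _).le, (hxy τ).le, hmid _ (hA1 τ), ?_,
    hcl, hnG⟩
  -- constant sign
  have hre : ∀ τ ∈ Icc p q, (ch α β (R τ)).re ≠ 0 := by
    intro τ hτ h
    have h3 := Complex.norm_le_abs_re_add_abs_im (ch α β (R τ))
    rw [h, abs_zero, zero_add] at h3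
    have h4 := hmid τ hτ
    have h5 := hRim τ
    simp only [hL] at h4
    linarith
  by_contra hcon
  push Not at hcon
  have hcont : Continuous fun τ => (ch α β (R τ)).re :=
    Complex.continuous_re.comp (hC.comp hRc)
  have hord := (isPreconnected_Icc.image (fun τ => (ch α β (R τ)).re)
    hcont.continuousOn : IsPreconnected ((fun τ => (ch α β (R τ)).re) '' Icc p q)).ordConnected
  rcases mul_neg_iff.1 hcon with ⟨h2, h3⟩ | ⟨h2, h3⟩
  · obtain ⟨z, hz, hz2⟩ := hord.out (mem_image_of_mem _ (hB1 τ)) (mem_image_of_mem _ (hA1 τ))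
      (show (0 : ℝ) ∈ Icc _ _ from ⟨h3.le, h2.le⟩)
    exact hre z hz hz2
  · obtain ⟨z, hz, hz2⟩ := hord.out (mem_image_of_mem _ (hA1 τ)) (mem_image_of_mem _ (hB1 τ))
      (show (0 : ℝ) ∈ Icc _ _ from ⟨h2.le, h3.le⟩)
    exact hre z hz hz2

/-- exact version -/
theorem exact_fam (hα : Continuous α) (hβ : Continuous β) (h0 : α 0 = β 0) (h1 : α 1 = β 1)
    (hne : ∀ s ∈ Icc (0 : ℝ) 1, ∀ t ∈ Icc (0 : ℝ) 1, α s = β t → (s = 0 ∧ t = 0) ∨ (s = 1 ∧ t = 1))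
    (hαN : ∀ s ∈ Icc (0 : ℝ) 1, (α 0).im ≤ (α s).im ∧ (α s).im ≤ (α 1).im)
    (hβN : ∀ s ∈ Icc (0 : ℝ) 1, (α 0).im ≤ (β s).im ∧ (β s).im ≤ (α 1).im)
    (G : Set (ℂ × ℝ)) (hG : IsOpen G) (hs : (α 1 - α 0, (0 : ℝ)) ∈ G)
    (he : ∀ l : ℝ, 0 < l → ((0 : ℂ), l) ∉ G) :
    ∃ z w : ℂ, ∃ l : ℝ, 0 < l ∧ z ∈ α '' Icc 0 1 ∪ β '' Icc 0 1 ∧
      z + l ∈ α '' Icc 0 1 ∪ β '' Icc 0 1 ∧ z + w ∈ α '' Icc 0 1 ∪ β '' Icc 0 1 ∧
      z + w + l ∈ α '' Icc 0 1 ∪ β '' Icc 0 1 ∧ (w, l) ∈ closure G ∧ (w, l) ∉ G := by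
  obtain ⟨r, hr, hball⟩ := Metric.isOpen_iff.1 hG _ hs
  obtain ⟨d0, hd0, hδ0⟩ := Metric.continuousAt_iff.1 (hα.continuousAt (x := 0)) (r / 2) (by linarith)
  obtain ⟨d1, hd1, hδ1⟩ := Metric.continuousAt_iff.1 (hα.continuousAt (x := 1)) (r / 2) (by linarith)
  set δ : ℝ := min (1 / 4) (min (d0 / 2) (d1 / 2)) with hδ
  have hδp : 0 < δ := by positivity
  have hδ4 : δ ≤ 1 / 4 := min_le_left _ _
  have hδd0 : δ < d0 := lt_of_le_of_lt ((min_le_right _ _).trans (min_le_left _ _)) (by linarith)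
  have hδd1 : δ < d1 := lt_of_le_of_lt ((min_le_right _ _).trans (min_le_right _ _)) (by linarith)
  obtain ⟨l, hl, hlr, hsc⟩ := scale α β hα hβ hne δ hδp r hr
  have hst : ∀ s ∈ Icc (0 : ℝ) 1, ∀ s' ∈ Icc (0 : ℝ) 1, s ≤ δ → 1 - δ ≤ s' →
      (α s' - α s, l) ∈ G := by
    intro s hs s' hs' h2 h3
    apply hball
    rw [Metric.mem_ball, Prod.dist_eq, max_lt_iff]
    constructor
    · have a1 : dist (α s) (α 0) < r / 2 := hδ0 (by
        rw [Real.dist_eq, sub_zero, abs_of_nonneg hs.1]; linarith)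
      have a2 : dist (α s') (α 1) < r / 2 := hδ1 (by
        rw [Real.dist_eq, abs_of_nonpos (by linarith [hs'.2])]; linarith)
      calc dist (α s' - α s) (α 1 - α 0) ≤ dist (α s') (α 1) + dist (α s) (α 0) := by
            rw [dist_eq_norm, dist_eq_norm, dist_eq_norm]
            calc ‖α s' - α s - (α 1 - α 0)‖ = ‖(α s' - α 1) - (α s - α 0)‖ := by congr 1; ring
              _ ≤ _ := norm_sub_le _ _
        _ < r := by linarith
    · simp only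
      rw [Real.dist_eq, sub_zero, abs_of_pos hl]
      exact hlr
  -- the compact set of candidates
  have hC := ch_cont α β hα hβ
  set X : Set ((ℝ × ℝ) × (ℝ × ℝ)) := ((Icc (0 : ℝ) 1 ×ˢ Icc (0 : ℝ) 1) ×ˢ
    (Icc (0 : ℝ) 1 ×ˢ Icc (0 : ℝ) 1)) ∩ ({x | l ≤ ‖ch α β x.1‖} ∩
    ({x | 0 ≤ (ch α β x.1).re * (ch α β x.2).re} ∩
    ((fun x => (α x.2.1 - α x.1.1, ‖ch α β x.1‖)) ⁻¹' closure G ∩
    (fun x => (α x.2.1 - α x.1.1, ‖ch α β x.1‖)) ⁻¹' Gᶜ))) with hX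
  have c1 : Continuous fun x : (ℝ × ℝ) × (ℝ × ℝ) => ch α β x.1 := hC.comp continuous_fst
  have c2 : Continuous fun x : (ℝ × ℝ) × (ℝ × ℝ) => ch α β x.2 := hC.comp continuous_snd
  have c3 : Continuous fun x : (ℝ × ℝ) × (ℝ × ℝ) => (α x.2.1 - α x.1.1, ‖ch α β x.1‖) := by
    refine Continuous.prodMk ?_ c1.norm
    exact (hα.comp (continuous_fst.comp continuous_snd)).sub
      (hα.comp (continuous_fst.comp continuous_fst))
  have hXc : IsCompact X := by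
    refine ((isCompact_Icc.prod isCompact_Icc).prod (isCompact_Icc.prod isCompact_Icc)).inter_right ?_
    refine (isClosed_le continuous_const c1.norm).inter ((isClosed_le continuous_const ?_).inter
      ((isClosed_closure.preimage c3).inter (hG.isClosed_compl.preimage c3)))
    exact (Complex.continuous_re.comp c1).mul (Complex.continuous_re.comp c2)
  set Φ : (ℝ × ℝ) × (ℝ × ℝ) → ℝ := fun x => |(ch α β x.1).im| + |(ch α β x.2).im| +
    |‖ch α β x.1‖ - ‖ch α β x.2‖| with hΦ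
  have hΦc : Continuous Φ :=
    ((Complex.continuous_im.comp c1).abs.add (Complex.continuous_im.comp c2).abs).add
      (c1.norm.sub c2.norm).abs
  have happ : ∀ ε, 0 < ε → ε < l → ∃ x ∈ X, Φ x ≤ 3 * ε := by
    intro ε hε hεl
    obtain ⟨P, hP, Q, hQ, g1, g2, g3, g4, g5, g6, g7⟩ := approx α β hα hβ h0 h1 hαN hβN G hG he δ
      hδ4 hδp l hl hsc hst ε hε hεl
    exact ⟨(P, Q), ⟨⟨hP, hQ⟩, g4, g5, g6, g7⟩, by simp only [hΦ]; linarith⟩
  obtain ⟨x0, hx0, -⟩ := happ (l / 2) (by linarith) (by linarith)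
  obtain ⟨x, hx, hxm⟩ := hXc.exists_isMinOn ⟨x0, hx0⟩ hΦc.continuousOn
  have hΦ0 : Φ x = 0 := by
    have hnn : 0 ≤ Φ x := by simp only [hΦ]; positivity
    rcases hnn.lt_or_eq with h | h
    · exfalso
      obtain ⟨y, hy, hy2⟩ := happ (min (l / 2) (Φ x / 4)) (by positivity)
        ((min_le_left _ _).trans_lt (by linarith))
      have h3 : Φ x ≤ Φ y := hxm hy
      have h4 := min_le_right (l / 2) (Φ x / 4)
      linarith
    · exact h.symm
  obtain ⟨⟨hP, hQ⟩, g4, g5, g6, g7⟩ := hx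
  simp only [mem_ofPred_eq] at g4 g5
  have z1 : (ch α β x.1).im = 0 := by
    have a1 := abs_nonneg (ch α β x.1).im
    have a2 := abs_nonneg (ch α β x.2).im
    have a3 := abs_nonneg (‖ch α β x.1‖ - ‖ch α β x.2‖)
    simp only [hΦ] at hΦ0
    exact abs_eq_zero.1 (by linarith)
  have z2 : (ch α β x.2).im = 0 := by
    have a1 := abs_nonneg (ch α β x.1).im
    have a2 := abs_nonneg (ch α β x.2).im
    have a3 := abs_nonneg (‖ch α β x.1‖ - ‖ch α β x.2‖)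
    simp only [hΦ] at hΦ0
    exact abs_eq_zero.1 (by linarith)
  have z3 : ‖ch α β x.1‖ = ‖ch α β x.2‖ := by
    have a1 := abs_nonneg (ch α β x.1).im
    have a2 := abs_nonneg (ch α β x.2).im
    have a3 := abs_nonneg (‖ch α β x.1‖ - ‖ch α β x.2‖)
    simp only [hΦ] at hΦ0
    exact sub_eq_zero.1 (abs_eq_zero.1 (by linarith))
  set l' := ‖ch α β x.1‖ with hl'
  have hl'0 : 0 < l' := by linarith
  have n1 : l' = |(ch α β x.1).re| := by
    rw [hl', ← Complex.abs_re_eq_norm.2 z1]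
  have n2 : l' = |(ch α β x.2).re| := by
    rw [z3, ← Complex.abs_re_eq_norm.2 z2]
  have i01 : ∀ y ∈ Icc (0 : ℝ) 1, α y ∈ α '' Icc 0 1 ∪ β '' Icc 0 1 :=
    fun y hy => Or.inl ⟨y, hy, rfl⟩
  have i02 : ∀ y ∈ Icc (0 : ℝ) 1, β y ∈ α '' Icc 0 1 ∪ β '' Icc 0 1 :=
    fun y hy => Or.inr ⟨y, hy, rfl⟩
  -- the two cases of the sign
  have cases : (ch α β x.1 = (l' : ℂ) ∧ ch α β x.2 = (l' : ℂ)) ∨
      (ch α β x.1 = -(l' : ℂ) ∧ ch α β x.2 = -(l' : ℂ)) := by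
    rcases le_total 0 (ch α β x.1).re with h | h
    · left
      rw [abs_of_nonneg h] at n1
      have h5 : 0 ≤ (ch α β x.2).re := by
        by_contra hc
        push Not at hc
        have := mul_neg_of_pos_of_neg (show 0 < (ch α β x.1).re by linarith) hc
        linarith
      rw [abs_of_nonneg h5] at n2
      exact ⟨Complex.ext (by simpa using n1.symm) (by simpa using z1),
        Complex.ext (by simpa using n2.symm) (by simpa using z2)⟩
    · right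
      rw [abs_of_nonpos h] at n1
      have h5 : (ch α β x.2).re ≤ 0 := by
        by_contra hc
        push Not at hc
        have := mul_neg_of_neg_of_pos (show (ch α β x.1).re < 0 by linarith) hc
        linarith
      rw [abs_of_nonpos h5] at n2
      exact ⟨Complex.ext (by simp; linarith) (by simpa using z1),
        Complex.ext (by simp; linarith) (by simpa using z2)⟩
  rcases cases with ⟨e1, e2⟩ | ⟨e1, e2⟩
  · -- `α = β + l`
    have f1 : α x.1.1 = β x.1.2 + l' := by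
      rw [← e1]; unfold ch; ring
    have f2 : α x.2.1 = β x.2.2 + l' := by
      rw [← e2]; unfold ch; ring
    refine ⟨β x.1.2, α x.2.1 - α x.1.1, l', hl'0, i02 _ hP.2, ?_, ?_, ?_, g6, g7⟩
    · rw [← f1]; exact i01 _ hP.1
    · have : β x.1.2 + (α x.2.1 - α x.1.1) = β x.2.2 := by rw [f1, f2]; ring
      rw [this]; exact i02 _ hQ.2
    · have : β x.1.2 + (α x.2.1 - α x.1.1) + l' = α x.2.1 := by rw [f1]; ring
      rw [this]; exact i01 _ hQ.1
  · have f1 : β x.1.2 = α x.1.1 + l' := by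
      have : ch α β x.1 = α x.1.1 - β x.1.2 := rfl
      rw [this] at e1
      linear_combination -e1
    have f2 : β x.2.2 = α x.2.1 + l' := by
      have : ch α β x.2 = α x.2.1 - β x.2.2 := rfl
      rw [this] at e2
      linear_combination -e2
    refine ⟨α x.1.1, α x.2.1 - α x.1.1, l', hl'0, i01 _ hP.1, ?_, ?_, ?_, g6, g7⟩
    · rw [← f1]; exact i02 _ hP.2
    · have : α x.1.1 + (α x.2.1 - α x.1.1) = α x.2.1 := by ring
      rw [this]; exact i01 _ hQ.1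
    · have : α x.1.1 + (α x.2.1 - α x.1.1) + l' = β x.2.2 := by rw [f2]; ring
      rw [this]; exact i02 _ hQ.2

end

end Pool.Agent.T2H33.Peg
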