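import Pool.Agent.T2H33.Peg.Aff

/-! One-parameter groups of linear maps with a real eigenvalue. -/

set_option autoImplicit false

open Set Topology

namespace Pool.Agent.T2H33.Peg

lemma hasSum_exp (x : ℝ) : HasSum (fun n : ℕ => ((n.factorial : ℝ))⁻¹ * x ^ n) (Real.exp x) := by
  have h := NormedSpace.exp_series_hasSum_exp' (𝕂 := ℝ) (𝔸 := ℝ) x
  rw [Real.exp_eq_exp_ℝ]
  simpa using h

lemma hasSum_exp' (x : ℝ) :
    HasSum (fun n : ℕ => ((n.factorial : ℝ))⁻¹ * (n * x ^ (n - 1))) (Real.exp x) := by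
  rw [← hasSum_nat_add_iff' 1]
  simp only [Finset.sum_range_one, Nat.cast_zero, zero_mul, mul_zero, sub_zero]
  have e : (fun n : ℕ => (((n + 1).factorial : ℝ))⁻¹ * (((n + 1 : ℕ) : ℝ) * x ^ (n + 1 - 1))) =
      fun n : ℕ => ((n.factorial : ℝ))⁻¹ * x ^ n := by
    funext n
    rw [Nat.factorial_succ, Nat.add_sub_cancel]
    push_cast
    have h1 : (n.factorial : ℝ) ≠ 0 := by exact_mod_cast Nat.factorial_ne_zero n
    have h2 : ((n : ℝ) + 1) ≠ 0 := by positivity
    field_simp
  rw [e]
  exact hasSum_exp x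

/-- the exponential on a generalised eigenvector -/
lemma exp_gen (A : ℂ →L[ℝ] ℂ) (v b : ℂ) (c p : ℝ) (hv : A v = c • v) (hb : A b = c • b + p • v) :
    (NormedSpace.exp A) b = Real.exp c • b + (Real.exp c * p) • v := by
  have hpow : ∀ n : ℕ, (A ^ n) v = c ^ n • v := by
    intro n
    induction n with
    | zero => simp
    | succ n ih =>
      rw [pow_succ', mul_apply_eq_comp, ih, map_smul, hv, smul_smul, pow_succ]
  have hpowb : ∀ n : ℕ, (A ^ n) b = c ^ n • b + (n * c ^ (n - 1) * p) • v := by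
    intro n
    induction n with
    | zero => simp
    | succ n ih =>
      rw [pow_succ', mul_apply_eq_comp, ih, map_add, map_smul, map_smul, hb, hv,
        smul_add, smul_smul, smul_smul, smul_smul, add_assoc, ← add_smul, Nat.add_sub_cancel]
      congr 2
      · rcases n with _ | n
        · simp
        · simp only [Nat.add_sub_cancel]
          push_cast
          ring
  have h := NormedSpace.exp_series_hasSum_exp' (𝕂 := ℝ) (𝔸 := ℂ →L[ℝ] ℂ) A
  have h2 := h.mapL (ContinuousLinearMap.apply ℝ ℂ b)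
  simp only [ContinuousLinearMap.apply_apply, smul_apply] at h2
  refine h2.unique ?_
  have h3 := ((hasSum_exp c).smul_const b).add (((hasSum_exp' c).mul_right p).smul_const v)
  have e : (fun n : ℕ => ((n.factorial : ℝ))⁻¹ • (A ^ n) b) = fun n : ℕ =>
      (((n.factorial : ℝ))⁻¹ * c ^ n) • b +
        (((n.factorial : ℝ))⁻¹ * (n * c ^ (n - 1)) * p) • v := by
    funext n
    rw [hpowb n, smul_add, smul_smul, smul_smul]
    congr 2
    ring
  rw [e]
  exact h3

/-- scaling -/
lemma sq_scale (K : Set ℂ) (M : ℂ → ℂ) (t : ℝ) (ht : t ≠ 0)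
    (h : HasSquare ((fun z => t • M z) '' K)) : HasSquare (M '' K) := by
  obtain ⟨z, w, hw, ⟨x1, h1, e1⟩, ⟨x2, h2, e2⟩, ⟨x3, h3, e3⟩, ⟨x4, h4, e4⟩⟩ := h
  simp only at e1 e2 e3 e4
  have key : ∀ x y : ℂ, t • M x = y → M x = t⁻¹ • y := by
    intro x y h
    rw [← h, smul_smul, inv_mul_cancel₀ ht, one_smul]
  refine ⟨t⁻¹ • z, t⁻¹ • w, smul_ne_zero (inv_ne_zero ht) hw, ⟨x1, h1, key _ _ e1⟩,
    ⟨x2, h2, ?_⟩, ⟨x3, h3, ?_⟩, ⟨x4, h4, ?_⟩⟩
  · rw [key _ _ e2, smul_add]
  · rw [key _ _ e3, smul_add, smul_add, mul_smul_comm]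
  · rw [key _ _ e4, smul_add, mul_smul_comm]

/-- **Main theorem.** -/
theorem group (γ : Circle → ℂ) (hγ : Continuous γ) (hinj : Function.Injective γ) (X : ℂ →L[ℝ] ℂ)
    (hX : ∃ v : ℂ, ∃ c : ℝ, v ≠ 0 ∧ X v = c • v)
    (hX' : ∀ c : ℝ, X ≠ c • ContinuousLinearMap.id ℝ ℂ) :
    ∃ s : ℝ, HasSquare (⇑(NormedSpace.exp (s • X) : ℂ →L[ℝ] ℂ) '' range γ) := by
  obtain ⟨v, c, hv, hc⟩ := hX
  -- coordinates
  have hz : ∀ z : ℂ, z = (z / v).re • v + (z / v).im • (Complex.I * v) := by
    intro z
    rw [Complex.real_smul, Complex.real_smul]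
    have h1 : z = (z / v) * v := by rw [div_mul_cancel₀ _ hv]
    conv_lhs => rw [h1, ← Complex.re_add_im (z / v)]
    ring
  set b : ℂ := Complex.I * v with hb
  set p : ℝ := (X b / v).re with hp
  set q : ℝ := (X b / v).im with hq
  have hXb : X b = p • v + q • b := hz (X b)
  have him : ∀ x y : ℝ, (v * (starRingEnd ℂ) (x • v + y • b)).im = -(y * Complex.normSq v) := by
    intro x y
    rw [Complex.real_smul, Complex.real_smul, hb, Complex.normSq_apply]
    simp
    ring
  have hn : 0 < Complex.normSq v := Complex.normSq_pos.2 hv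
  by_cases hqc : q = c
  · -- one eigenvalue
    have hp0 : p ≠ 0 := by
      intro h0
      apply hX' c
      ext z
      rw [smul_apply, ContinuousLinearMap.id_apply]
      rw [hz z, map_add, map_smul, map_smul, hc, hXb, h0, hqc, zero_smul, zero_add, smul_add,
        smul_comm c, smul_comm c]
    obtain ⟨s, hs⟩ := shear γ hγ hinj v b (by
      have := him 0 1
      rw [zero_smul, zero_add, one_smul] at this
      rw [this]
      have : (1 : ℝ) * Complex.normSq v ≠ 0 := by positivity
      exact neg_ne_zero.2 this)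
    refine ⟨s / p, ?_⟩
    have e1 : ((s / p) • X) v = (s / p * c) • v := by
      rw [smul_apply, hc, smul_smul]
    have e2 : ((s / p) • X) b = (s / p * c) • b + s • v := by
      rw [smul_apply, hXb, hqc, smul_add, smul_smul, smul_smul,
        div_mul_cancel₀ _ hp0, add_comm]
    have f1 := exp_gen ((s / p) • X) v v (s / p * c) 0 e1 (by rw [e1, zero_smul, add_zero])
    have f2 := exp_gen ((s / p) • X) v b (s / p * c) s e1 e2
    set t : ℝ := Real.exp (-(s / p * c)) with ht
    have ht0 : t ≠ 0 := (Real.exp_pos _).ne'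
    have ht1 : t * Real.exp (s / p * c) = 1 := by
      rw [ht, ← Real.exp_add, neg_add_cancel, Real.exp_zero]
    apply sq_scale _ _ t ht0
    have := hs ((t • NormedSpace.exp ((s / p) • X) : ℂ →L[ℝ] ℂ) : ℂ →ₗ[ℝ] ℂ) (by
      rw [ContinuousLinearMap.coe_coe, smul_apply, f1, mul_zero, zero_smul,
        add_zero, smul_smul, ht1, one_smul]) (by
      rw [ContinuousLinearMap.coe_coe, smul_apply, f2, smul_add, smul_smul,
        smul_smul, ← mul_assoc, ht1, one_smul, one_mul])
    simpa using this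
  · -- two eigenvalues
    have hqc' : q - c ≠ 0 := sub_ne_zero.2 hqc
    set b' : ℂ := b + (p / (q - c)) • v with hb'
    have hXb' : X b' = q • b' := by
      rw [hb', map_add, map_smul, hXb, hc, smul_add, smul_smul, smul_smul]
      have : p • v + q • b + (p / (q - c) * c) • v = q • b + (p + p / (q - c) * c) • v := by
        rw [add_smul]; abel
      rw [this]
      congr 2
      field_simp
      ring
    obtain ⟨r, hr, hL⟩ := stretch γ hγ hinj v b' (by
      have := him (p / (q - c)) 1
      rw [one_smul, add_comm] at this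
      rw [hb', this]
      have : (1 : ℝ) * Complex.normSq v ≠ 0 := by positivity
      exact neg_ne_zero.2 this)
    set s : ℝ := Real.log r / (q - c) with hs
    refine ⟨s, ?_⟩
    have e1 : (s • X) v = (s * c) • v := by
      rw [smul_apply, hc, smul_smul]
    have e2 : (s • X) b' = (s * q) • b' := by
      rw [smul_apply, hXb', smul_smul]
    have f1 := exp_gen (s • X) v v (s * c) 0 e1 (by rw [e1, zero_smul, add_zero])
    have f2 := exp_gen (s • X) b' b' (s * q) 0 e2 (by rw [e2, zero_smul, add_zero])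
    set t : ℝ := Real.exp (-(s * c)) with ht
    have ht0 : t ≠ 0 := (Real.exp_pos _).ne'
    have ht1 : t * Real.exp (s * c) = 1 := by
      rw [ht, ← Real.exp_add, neg_add_cancel, Real.exp_zero]
    have ht2 : t * Real.exp (s * q) = r := by
      rw [ht, ← Real.exp_add]
      have : -(s * c) + s * q = Real.log r := by
        rw [hs]; field_simp; ring
      rw [this, Real.exp_log hr]
    apply sq_scale _ _ t ht0
    have := hL ((t • NormedSpace.exp (s • X) : ℂ →L[ℝ] ℂ) : ℂ →ₗ[ℝ] ℂ) (by
      rw [ContinuousLinearMap.coe_coe, smul_apply, f1, mul_zero, zero_smul,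
        add_zero, smul_smul, ht1, one_smul]) (by
      rw [ContinuousLinearMap.coe_coe, smul_apply, f2, mul_zero, zero_smul,
        add_zero, smul_smul, ht2])
    simpa using this

end Pool.Agent.T2H33.Peg
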